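import Mathlib

/-!
# Averages over a uniformly random matching
-/

namespace Pool.Agent.Helper2.OC

open Finset

/-- Averaging over a transitive group action. -/
theorem sum_smul_of_transitive {G X : Type*} [Group G] [Fintype G] [Fintype X] [MulAction G X]
    [MulAction.IsPretransitive G X] (f : X → ℝ) (x : X) :
    (Fintype.card X : ℝ) * ∑ g : G, f (g • x) = (Fintype.card G : ℝ) * ∑ y, f y := by
  have h1 : ∀ y : X, ∑ g : G, f (g • y) = ∑ g : G, f (g • x) := by
    intro y
    obtain ⟨k, rfl⟩ := MulAction.exists_smul_eq G x y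
    refine Fintype.sum_equiv (Equiv.mulRight k) _ _ fun g => ?_
    simp [mul_smul]
  have h2 : ∑ y : X, ∑ g : G, f (g • y) = (Fintype.card X : ℝ) * ∑ g : G, f (g • x) := by
    rw [Finset.sum_congr rfl fun y _ => h1 y, Finset.sum_const, Finset.card_univ, nsmul_eq_mul]
  rw [← h2, Finset.sum_comm]
  have h3 : ∀ g : G, ∑ y : X, f (g • y) = ∑ y, f y := fun g =>
    Fintype.sum_equiv (MulAction.toPerm g) _ _ fun y => rfl
  rw [Finset.sum_congr rfl fun g _ => h3 g, Finset.sum_const, Finset.card_univ, nsmul_eq_mul]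

/-- The images of `k` given points under a uniformly random bijection are uniformly distributed
over all injective `k`-tuples. -/
theorem sum_equiv_emb {α β : Type*} [Fintype α] [Fintype β] [DecidableEq α] [DecidableEq β]
    (k : ℕ) (b : Fin k ↪ β) (f : (Fin k ↪ α) → ℝ) :
    (Fintype.card (Fin k ↪ α) : ℝ) * ∑ e : α ≃ β, f (b.trans e.symm.toEmbedding) =
      (Fintype.card (α ≃ β) : ℝ) * ∑ x : Fin k ↪ α, f x := by
  classical
  haveI : MulAction.IsPretransitive (Equiv.Perm α) (Fin k ↪ α) :=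
    (Equiv.Perm.isMultiplyPretransitive α k)
  -- average over permutations of `α`
  have h1 : ∀ π : Equiv.Perm α, ∑ e : α ≃ β, f (b.trans e.symm.toEmbedding) =
      ∑ e : α ≃ β, f (π • (b.trans e.symm.toEmbedding)) := by
    intro π
    symm
    refine Fintype.sum_equiv (Equiv.equivCongr π (Equiv.refl β)) _ _ fun e => ?_
    congr 1
  have h2 : (Fintype.card (Equiv.Perm α) : ℝ) * ∑ e : α ≃ β, f (b.trans e.symm.toEmbedding) =
      ∑ e : α ≃ β, ∑ π : Equiv.Perm α, f (π • (b.trans e.symm.toEmbedding)) := by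
    rw [Finset.sum_comm, ← Finset.sum_congr rfl fun π _ => h1 π, Finset.sum_const,
      Finset.card_univ, nsmul_eq_mul]
  have h3 : (Fintype.card (Fin k ↪ α) : ℝ) *
      ∑ e : α ≃ β, ∑ π : Equiv.Perm α, f (π • (b.trans e.symm.toEmbedding)) =
      (Fintype.card (α ≃ β) : ℝ) * ((Fintype.card (Equiv.Perm α) : ℝ) * ∑ x, f x) := by
    rw [Finset.mul_sum, Finset.sum_congr rfl fun e _ =>
      sum_smul_of_transitive f (b.trans e.symm.toEmbedding), Finset.sum_const, Finset.card_univ,
      nsmul_eq_mul]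
  have h4 : (0 : ℝ) < Fintype.card (Equiv.Perm α) := by exact_mod_cast Fintype.card_pos
  have h5 : (Fintype.card (Equiv.Perm α) : ℝ) * ((Fintype.card (Fin k ↪ α) : ℝ) *
      ∑ e : α ≃ β, f (b.trans e.symm.toEmbedding)) = (Fintype.card (Equiv.Perm α) : ℝ) *
      ((Fintype.card (α ≃ β) : ℝ) * ∑ x : Fin k ↪ α, f x) := by
    rw [mul_left_comm, h2, h3]
    ring
  exact mul_left_cancel₀ h4.ne' h5

end Pool.Agent.Helper2.OC
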