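import Pool.Agent.Helper2.OC.Avg

/-!
# Mean and variance of pair statistics under a random matching with random orientations
-/

namespace Pool.Agent.Helper2.OC

open Finset

section Bits

variable {ι : Type*} [Fintype ι] [DecidableEq ι]

theorem sum_bit (j : ι) (F : Bool → ℝ) :
    2 * ∑ g : ι → Bool, F (g j) = (Fintype.card (ι → Bool) : ℝ) * (F false + F true) := by
  let E : (ι → Bool) ≃ (ι → Bool) :=
    { toFun := fun g => Function.update g j (!g j)
      invFun := fun g => Function.update g j (!g j)
      left_inv := fun g => by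
        funext i
        by_cases h : i = j
        · subst h; simp
        · simp [Function.update_of_ne h]
      right_inv := fun g => by
        funext i
        by_cases h : i = j
        · subst h; simp
        · simp [Function.update_of_ne h] }
  have h1 : ∑ g : ι → Bool, F (g j) = ∑ g : ι → Bool, F (!g j) := by
    symm
    refine Fintype.sum_equiv E _ _ fun g => ?_
    simp [E]
  have h2 : ∑ g : ι → Bool, (F (g j) + F (!g j)) =
      (Fintype.card (ι → Bool) : ℝ) * (F false + F true) := by
    rw [Finset.sum_congr rfl (fun (g : ι → Bool) _ => show F (g j) + F (!g j) = F false + F true by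
      cases g j <;> simp [add_comm]), Finset.sum_const, Finset.card_univ, nsmul_eq_mul]
  rw [Finset.sum_add_distrib, ← h1] at h2
  linarith

theorem sum_bit2 {j j' : ι} (hj : j ≠ j') (F : Bool → Bool → ℝ) :
    4 * ∑ g : ι → Bool, F (g j) (g j') = (Fintype.card (ι → Bool) : ℝ) *
      (∑ x : Bool, ∑ y : Bool, F x y) := by
  let E : (ι → Bool) ≃ (ι → Bool) :=
    { toFun := fun g => Function.update g j (!g j)
      invFun := fun g => Function.update g j (!g j)
      left_inv := fun g => by
        funext i
        by_cases h : i = j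
        · subst h; simp
        · simp [Function.update_of_ne h]
      right_inv := fun g => by
        funext i
        by_cases h : i = j
        · subst h; simp
        · simp [Function.update_of_ne h] }
  have h1 : ∑ g : ι → Bool, F (g j) (g j') = ∑ g : ι → Bool, F (!g j) (g j') := by
    symm
    refine Fintype.sum_equiv E _ _ fun g => ?_
    simp [E, Function.update_of_ne hj.symm]
  have h2 : ∑ g : ι → Bool, (F (g j) (g j') + F (!g j) (g j')) =
      ∑ g : ι → Bool, (fun y => F false y + F true y) (g j') := by
    refine Finset.sum_congr rfl fun g _ => ?_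
    cases g j <;> simp [add_comm]
  have h3 := sum_bit j' (fun y => F false y + F true y)
  rw [Finset.sum_add_distrib, ← h1] at h2
  rw [← h2] at h3
  simp only [Fintype.sum_bool]
  linarith

end Bits

section Pairs

variable {α β : Type*} [Fintype α] [Fintype β] [DecidableEq α] [DecidableEq β]

/-- statistic of the `j`-th pair -/
def pairStat (h : α → α → Bool → ℝ) (o : (α ≃ β × Bool) × (β → Bool)) (j : β) : ℝ :=
  h (o.1.symm (j, false)) (o.1.symm (j, true)) (o.2 j)

/-- the mean of a pair statistic -/
noncomputable def pairMean (h : α → α → Bool → ℝ) : ℝ :=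
  (∑ x : Fin 2 ↪ α, (h (x 0) (x 1) false + h (x 0) (x 1) true)) /
    (2 * Fintype.card (Fin 2 ↪ α))

/-- embedding of the two slots of `j` -/
def slots (j : β) : Fin 2 ↪ β × Bool where
  toFun := ![(j, false), (j, true)]
  inj' := by
    intro a b h
    fin_cases a <;> fin_cases b <;> simp_all

/-- embedding of the four slots of `j, j'` -/
def slots4 {j j' : β} (hj : j ≠ j') : Fin 4 ↪ β × Bool where
  toFun := ![(j, false), (j, true), (j', false), (j', true)]
  inj' := by
    intro a b h
    fin_cases a <;> fin_cases b <;> simp_all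

variable (hne : Nonempty (Fin 2 ↪ α))

include hne in
theorem sum_pairStat (h : α → α → Bool → ℝ) (j : β) :
    ∑ o : (α ≃ β × Bool) × (β → Bool), pairStat h o j =
      (Fintype.card ((α ≃ β × Bool) × (β → Bool)) : ℝ) * pairMean h := by
  have hc : (0 : ℝ) < Fintype.card (Fin 2 ↪ α) := by exact_mod_cast Fintype.card_pos
  rw [Fintype.sum_prod_type]
  unfold pairStat
  simp only
  have h1 : ∀ e : α ≃ β × Bool, ∑ g : β → Bool, h (e.symm (j, false)) (e.symm (j, true)) (g j) =
      (Fintype.card (β → Bool) : ℝ) / 2 * (h (e.symm (j, false)) (e.symm (j, true)) false +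
        h (e.symm (j, false)) (e.symm (j, true)) true) := by
    intro e
    have := sum_bit j (h (e.symm (j, false)) (e.symm (j, true)))
    linarith
  rw [Finset.sum_congr rfl fun e _ => h1 e, ← Finset.mul_sum]
  have h2 := sum_equiv_emb (α := α) 2 (slots j) (fun x => h (x 0) (x 1) false + h (x 0) (x 1) true)
  have h3 : ∀ e : α ≃ β × Bool, ((slots j).trans e.symm.toEmbedding) 0 = e.symm (j, false) :=
    fun e => rfl
  have h4 : ∀ e : α ≃ β × Bool, ((slots j).trans e.symm.toEmbedding) 1 = e.symm (j, true) :=
    fun e => rfl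
  simp only [h3, h4] at h2
  unfold pairMean
  rw [Fintype.card_prod]
  push_cast
  field_simp
  linarith

include hne in
theorem sum_pairStat_mul {j j' : β} (hj : j ≠ j') (d : α → α → Bool → ℝ)
    (hd : ∀ a b y, 0 ≤ d a b y) :
    (Fintype.card (Fin 4 ↪ α) : ℝ) *
      ∑ o : (α ≃ β × Bool) × (β → Bool), pairStat d o j * pairStat d o j' ≤
      (Fintype.card ((α ≃ β × Bool) × (β → Bool)) : ℝ) *
        ((Fintype.card (Fin 2 ↪ α) : ℝ) * pairMean d) ^ 2 := by
  have hc : (0 : ℝ) < Fintype.card (Fin 2 ↪ α) := by exact_mod_cast Fintype.card_pos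
  rw [Fintype.sum_prod_type]
  unfold pairStat
  simp only
  have h1 : ∀ e : α ≃ β × Bool,
      ∑ g : β → Bool, d (e.symm (j, false)) (e.symm (j, true)) (g j) *
        d (e.symm (j', false)) (e.symm (j', true)) (g j') =
      (Fintype.card (β → Bool) : ℝ) / 4 *
        ((d (e.symm (j, false)) (e.symm (j, true)) false +
          d (e.symm (j, false)) (e.symm (j, true)) true) *
        (d (e.symm (j', false)) (e.symm (j', true)) false +
          d (e.symm (j', false)) (e.symm (j', true)) true)) := by
    intro e
    have := sum_bit2 hj (fun x y => d (e.symm (j, false)) (e.symm (j, true)) x *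
      d (e.symm (j', false)) (e.symm (j', true)) y)
    simp only [Fintype.sum_bool] at this
    linarith
  rw [Finset.sum_congr rfl fun e _ => h1 e, ← Finset.mul_sum]
  have h2 := sum_equiv_emb (α := α) 4 (slots4 hj)
    (fun x => (d (x 0) (x 1) false + d (x 0) (x 1) true) *
      (d (x 2) (x 3) false + d (x 2) (x 3) true))
  have h30 : ∀ e : α ≃ β × Bool, ((slots4 hj).trans e.symm.toEmbedding) 0 = e.symm (j, false) :=
    fun e => rfl
  have h31 : ∀ e : α ≃ β × Bool, ((slots4 hj).trans e.symm.toEmbedding) 1 = e.symm (j, true) :=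
    fun e => rfl
  have h32 : ∀ e : α ≃ β × Bool, ((slots4 hj).trans e.symm.toEmbedding) 2 = e.symm (j', false) :=
    fun e => rfl
  have h33 : ∀ e : α ≃ β × Bool, ((slots4 hj).trans e.symm.toEmbedding) 3 = e.symm (j', true) :=
    fun e => rfl
  simp only [h30, h31, h32, h33] at h2
  -- the sum over 4-tuples is at most the square of the sum over 2-tuples
  have h5 : ∑ x : Fin 4 ↪ α, (d (x 0) (x 1) false + d (x 0) (x 1) true) *
      (d (x 2) (x 3) false + d (x 2) (x 3) true) ≤
      (∑ x : Fin 2 ↪ α, (d (x 0) (x 1) false + d (x 0) (x 1) true)) *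
      (∑ x : Fin 2 ↪ α, (d (x 0) (x 1) false + d (x 0) (x 1) true)) := by
    rw [Finset.sum_mul_sum, ← Finset.sum_product']
    let φ : (Fin 4 ↪ α) → (Fin 2 ↪ α) × (Fin 2 ↪ α) := fun x =>
      (⟨![x 0, x 1], by
        intro a b h
        have := x.injective
        fin_cases a <;> fin_cases b <;> simp_all⟩,
       ⟨![x 2, x 3], by
        intro a b h
        have := x.injective
        fin_cases a <;> fin_cases b <;> simp_all⟩)
    have hφ : Function.Injective φ := by
      intro x y h
      have h1 := congrArg Prod.fst h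
      have h2 := congrArg Prod.snd h
      have a0 : x 0 = y 0 := congrArg (fun z : Fin 2 ↪ α => z 0) h1
      have a1 : x 1 = y 1 := congrArg (fun z : Fin 2 ↪ α => z 1) h1
      have a2 : x 2 = y 2 := congrArg (fun z : Fin 2 ↪ α => z 0) h2
      have a3 : x 3 = y 3 := congrArg (fun z : Fin 2 ↪ α => z 1) h2
      ext i
      fin_cases i
      · exact a0
      · exact a1
      · exact a2
      · exact a3
    have h6 : ∑ x : Fin 4 ↪ α, (d (x 0) (x 1) false + d (x 0) (x 1) true) *
        (d (x 2) (x 3) false + d (x 2) (x 3) true) =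
        ∑ p ∈ (Finset.univ : Finset (Fin 4 ↪ α)).image φ,
          (d (p.1 0) (p.1 1) false + d (p.1 0) (p.1 1) true) *
          (d (p.2 0) (p.2 1) false + d (p.2 0) (p.2 1) true) := by
      rw [Finset.sum_image (fun a _ b _ h => hφ h)]
      rfl
    rw [h6]
    refine Finset.sum_le_sum_of_subset_of_nonneg (fun _ _ => Finset.mem_univ _) ?_
    intro p _ _
    have := hd (p.1 0) (p.1 1) false
    have := hd (p.1 0) (p.1 1) true
    have := hd (p.2 0) (p.2 1) false
    have := hd (p.2 0) (p.2 1) true
    positivity
  have h7 : (Fintype.card (Fin 2 ↪ α) : ℝ) * pairMean d =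
      (∑ x : Fin 2 ↪ α, (d (x 0) (x 1) false + d (x 0) (x 1) true)) / 2 := by
    unfold pairMean
    field_simp
  rw [h7, Fintype.card_prod]
  push_cast
  have h8 : (0 : ℝ) ≤ Fintype.card (β → Bool) := Nat.cast_nonneg _
  have h9 : (0 : ℝ) ≤ Fintype.card (α ≃ β × Bool) := Nat.cast_nonneg _
  have h10 : (Fintype.card (Fin 4 ↪ α) : ℝ) * ((Fintype.card (β → Bool) : ℝ) / 4 *
      ∑ e : α ≃ β × Bool, (d (e.symm (j, false)) (e.symm (j, true)) false +
          d (e.symm (j, false)) (e.symm (j, true)) true) *
        (d (e.symm (j', false)) (e.symm (j', true)) false +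
          d (e.symm (j', false)) (e.symm (j', true)) true)) =
      (Fintype.card (β → Bool) : ℝ) / 4 * ((Fintype.card (α ≃ β × Bool) : ℝ) *
      ∑ x : Fin 4 ↪ α, (d (x 0) (x 1) false + d (x 0) (x 1) true) *
        (d (x 2) (x 3) false + d (x 2) (x 3) true)) := by
    rw [← h2]
    ring
  rw [h10]
  have h11 := mul_le_mul_of_nonneg_left h5 h9
  have h12 := mul_le_mul_of_nonneg_left h11 (div_nonneg h8 (by norm_num : (0:ℝ) ≤ 4))
  refine h12.trans (le_of_eq ?_)
  ring

end Pairs

end Pool.Agent.Helper2.OC
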