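import Mathlib

/-!
# A verified test for the nonnegativity of integer polynomials in two variables on `[0,1]^2`

Polynomials are lists of rows, a row is the list of coefficients of a polynomial in the second
variable.
-/

namespace Pool.Agent.Helper2.OC.Bern

/-- evaluation of a row -/
def ev : List ℤ → ℝ → ℝ
  | [], _ => 0
  | c :: l, r => (c : ℝ) + r * ev l r

/-- evaluation of a polynomial in two variables -/
def ev2 : List (List ℤ) → ℝ → ℝ → ℝ
  | [], _, _ => 0
  | l :: L, x, r => ev l r + x * ev2 L x r

/-- addition of rows -/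
def add : List ℤ → List ℤ → List ℤ
  | [], m => m
  | l, [] => l
  | a :: l, b :: m => (a + b) :: add l m

/-- addition -/
def add2 : List (List ℤ) → List (List ℤ) → List (List ℤ)
  | [], m => m
  | l, [] => l
  | a :: l, b :: m => add a b :: add2 l m

theorem ev_add (l m : List ℤ) (r : ℝ) : ev (add l m) r = ev l r + ev m r := by
  induction l generalizing m with
  | nil => simp [add, ev]
  | cons a l ih =>
    cases m with
    | nil => simp [add, ev]
    | cons b m => simp only [add, ev, ih]; push_cast; ring

theorem ev2_add (l m : List (List ℤ)) (x r : ℝ) : ev2 (add2 l m) x r = ev2 l x r + ev2 m x r := by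
  induction l generalizing m with
  | nil => simp [add2, ev2]
  | cons a l ih =>
    cases m with
    | nil => simp [add2, ev2]
    | cons b m => simp only [add2, ev2, ih, ev_add]; ring

/-- multiplication by a scalar -/
def smul (c : ℤ) (l : List ℤ) : List ℤ := l.map (c * ·)

theorem ev_smul (c : ℤ) (l : List ℤ) (r : ℝ) : ev (smul c l) r = c * ev l r := by
  induction l with
  | nil => simp [smul, ev]
  | cons a l ih =>
    simp only [smul, List.map_cons, ev] at *
    rw [ih]; push_cast; ring

def smul2 (c : ℤ) (L : List (List ℤ)) : List (List ℤ) := L.map (smul c)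

theorem ev2_smul (c : ℤ) (l : List (List ℤ)) (x r : ℝ) : ev2 (smul2 c l) x r = c * ev2 l x r := by
  induction l with
  | nil => simp [smul2, ev2]
  | cons a l ih =>
    simp only [smul2, List.map_cons, ev2] at *
    rw [ih, ev_smul]; ring

/-- product of rows -/
def mul : List ℤ → List ℤ → List ℤ
  | [], _ => []
  | a :: l, m => add (smul a m) (0 :: mul l m)

theorem ev_mul (l m : List ℤ) (r : ℝ) : ev (mul l m) r = ev l r * ev m r := by
  induction l with
  | nil => simp [mul, ev]
  | cons a l ih => simp only [mul, ev, ev_add, ev_smul, ih]; push_cast; ring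

/-- product of a row with a polynomial -/
def rmul (l : List ℤ) (M : List (List ℤ)) : List (List ℤ) := M.map (mul l)

theorem ev2_rmul (l : List ℤ) (M : List (List ℤ)) (x r : ℝ) :
    ev2 (rmul l M) x r = ev l r * ev2 M x r := by
  induction M with
  | nil => simp [rmul, ev2]
  | cons a M ih =>
    simp only [rmul, List.map_cons, ev2] at *
    rw [ih, ev_mul]; ring

/-- product -/
def mul2 : List (List ℤ) → List (List ℤ) → List (List ℤ)
  | [], _ => []
  | a :: l, m => add2 (rmul a m) ([] :: mul2 l m)

theorem ev2_mul (l m : List (List ℤ)) (x r : ℝ) : ev2 (mul2 l m) x r = ev2 l x r * ev2 m x r := by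
  induction l with
  | nil => simp [mul2, ev2]
  | cons a l ih => simp only [mul2, ev2, ev2_add, ev2_rmul, ih, ev]; ring

/-- composition of a row with a polynomial in two variables -/
def comp1 (Z : List (List ℤ)) : List ℤ → List (List ℤ)
  | [] => []
  | c :: l => add2 [[c]] (mul2 Z (comp1 Z l))

theorem ev2_comp1 (Z : List (List ℤ)) (l : List ℤ) (x r : ℝ) :
    ev2 (comp1 Z l) x r = ev l (ev2 Z x r) := by
  induction l with
  | nil => simp [comp1, ev2, ev]
  | cons c l ih => simp only [comp1, ev2_add, ev2_mul, ev2, ev, ih]; ring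

/-- composition -/
def comp2 (X Z : List (List ℤ)) : List (List ℤ) → List (List ℤ)
  | [] => []
  | l :: L => add2 (comp1 Z l) (mul2 X (comp2 X Z L))

theorem ev2_comp2 (X Z L : List (List ℤ)) (x r : ℝ) :
    ev2 (comp2 X Z L) x r = ev2 L (ev2 X x r) (ev2 Z x r) := by
  induction L with
  | nil => simp [comp2, ev2]
  | cons l L ih => simp only [comp2, ev2_add, ev2_mul, ev2, ih, ev2_comp1]

/-- `p(x) ↦ p(x+1)` for rows -/
def shift : List ℤ → List ℤ
  | [] => []
  | c :: l => add [c] (add (0 :: shift l) (shift l))

theorem ev_shift (l : List ℤ) (r : ℝ) : ev (shift l) r = ev l (r + 1) := by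
  induction l with
  | nil => simp [shift, ev]
  | cons c l ih => simp only [shift, ev_add, ev, ih]; push_cast; ring

/-- `p(x, r) ↦ p(x+1, r)` -/
def shift2 : List (List ℤ) → List (List ℤ)
  | [] => []
  | c :: l => add2 [c] (add2 ([] :: shift2 l) (shift2 l))

theorem ev2_shift (l : List (List ℤ)) (x r : ℝ) : ev2 (shift2 l) x r = ev2 l (x + 1) r := by
  induction l with
  | nil => simp [shift2, ev2]
  | cons c l ih => simp only [shift2, ev2_add, ev2, ih, ev]; ring

theorem ev_append (l m : List ℤ) (r : ℝ) : ev (l ++ m) r = ev l r + r ^ l.length * ev m r := by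
  induction l with
  | nil => simp [ev]
  | cons c l ih => simp only [List.cons_append, ev, ih, List.length_cons]; ring

theorem ev_reverse (l : List ℤ) {r : ℝ} (hr : r ≠ 0) :
    r * ev l.reverse r = r ^ l.length * ev l (1 / r) := by
  induction l with
  | nil => simp [ev]
  | cons c l ih =>
    rw [List.reverse_cons, ev_append, List.length_reverse, mul_add, ih]
    simp only [ev, List.length_cons, mul_zero, add_zero]
    field_simp
    ring

theorem ev_nonneg_of_all {l : List ℤ} (h : l.all (fun c => decide (0 ≤ c)) = true) {t : ℝ}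
    (ht : 0 ≤ t) : 0 ≤ ev l t := by
  induction l with
  | nil => simp [ev]
  | cons c l ih =>
    rw [List.all_cons, Bool.and_eq_true, decide_eq_true_iff] at h
    simp only [ev]
    have : (0 : ℝ) ≤ c := by exact_mod_cast h.1
    have := ih h.2
    positivity

/-- one-variable test -/
def nn (l : List ℤ) : Bool := (shift l.reverse).all (fun c => decide (0 ≤ c))

theorem continuous_ev (l : List ℤ) : Continuous (ev l) := by
  induction l with
  | nil =>
    have : ev [] = fun _ => (0 : ℝ) := by funext r; simp [ev]
    rw [this]; exact continuous_const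
  | cons c l ih =>
    have : ev (c :: l) = fun r => (c : ℝ) + r * ev l r := by funext r; simp [ev]
    rw [this]; fun_prop

theorem nonneg_closure {f : ℝ → ℝ} (hf : Continuous f) (h : ∀ r, 0 < r → r ≤ 1 → 0 ≤ f r) :
    ∀ r, 0 ≤ r → r ≤ 1 → 0 ≤ f r := by
  intro r h0 h1
  rcases h0.eq_or_lt with rfl | h0
  · have hmem : (0 : ℝ) ∈ closure (Set.Ioc (0:ℝ) 1) := by
      rw [closure_Ioc (by norm_num)]
      exact ⟨le_rfl, zero_le_one⟩
    have hcl : IsClosed {x | 0 ≤ f x} := isClosed_le continuous_const hf
    exact closure_minimal (fun x hx => h x hx.1 hx.2) hcl hmem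
  · exact h r h0 h1

theorem nn_sound {l : List ℤ} (h : nn l = true) {r : ℝ} (h0 : 0 ≤ r) (h1 : r ≤ 1) :
    0 ≤ ev l r := by
  refine nonneg_closure (continuous_ev l) (fun r hr0 hr1 => ?_) r h0 h1
  have hy : (1 : ℝ) / r ≠ 0 := by positivity
  have h2 := ev_reverse l hy
  rw [one_div_one_div] at h2
  have ht : 0 ≤ 1 / r - 1 := by
    rw [sub_nonneg, le_div_iff₀ hr0]; linarith
  have h3 : 0 ≤ ev l.reverse (1 / r) := by
    have := ev_nonneg_of_all h ht
    rw [ev_shift] at this
    rwa [sub_add_cancel] at this
  have h4 : 0 < (1 / r) ^ l.length := by positivity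
  have h5 : 0 ≤ (1 / r) ^ l.length * ev l r := by
    rw [← h2]
    exact mul_nonneg (by positivity) h3
  exact nonneg_of_mul_nonneg_right h5 h4

theorem ev2_append (l m : List (List ℤ)) (x r : ℝ) :
    ev2 (l ++ m) x r = ev2 l x r + x ^ l.length * ev2 m x r := by
  induction l with
  | nil => simp [ev2]
  | cons c l ih => simp only [List.cons_append, ev2, ih, List.length_cons]; ring

theorem ev2_reverse (l : List (List ℤ)) {x : ℝ} (hx : x ≠ 0) (r : ℝ) :
    x * ev2 l.reverse x r = x ^ l.length * ev2 l (1 / x) r := by
  induction l with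
  | nil => simp [ev2]
  | cons c l ih =>
    rw [List.reverse_cons, ev2_append, List.length_reverse, mul_add, ih]
    simp only [ev2, List.length_cons, mul_zero, add_zero]
    field_simp
    ring

theorem ev2_nonneg_of_all {l : List (List ℤ)} {r : ℝ} (h : ∀ c ∈ l, 0 ≤ ev c r) {t : ℝ}
    (ht : 0 ≤ t) : 0 ≤ ev2 l t r := by
  induction l with
  | nil => simp [ev2]
  | cons c l ih =>
    simp only [ev2]
    have h1 := h c (List.mem_cons_self)
    have h2 := ih fun d hd => h d (List.mem_cons_of_mem _ hd)
    positivity

/-- two-variable test -/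
def nn2 (L : List (List ℤ)) : Bool := (shift2 L.reverse).all nn

theorem continuous_ev2 (l : List (List ℤ)) (r : ℝ) : Continuous (fun x => ev2 l x r) := by
  induction l with
  | nil => simp only [ev2]; exact continuous_const
  | cons c l ih => simp only [ev2]; fun_prop

theorem nn2_sound {L : List (List ℤ)} (h : nn2 L = true) {x r : ℝ} (h0 : 0 ≤ x) (h1 : x ≤ 1)
    (hr0 : 0 ≤ r) (hr1 : r ≤ 1) : 0 ≤ ev2 L x r := by
  refine nonneg_closure (continuous_ev2 L r) (fun x hx0 hx1 => ?_) x h0 h1
  have hy : (1 : ℝ) / x ≠ 0 := by positivity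
  have h2 := ev2_reverse L hy r
  rw [one_div_one_div] at h2
  have ht : 0 ≤ 1 / x - 1 := by
    rw [sub_nonneg, le_div_iff₀ hx0]; linarith
  have h3 : 0 ≤ ev2 L.reverse (1 / x) r := by
    have := ev2_nonneg_of_all (l := shift2 L.reverse) (r := r) (fun c hc => by
      unfold nn2 at h
      rw [List.all_eq_true] at h
      exact nn_sound (h c hc) hr0 hr1) ht
    rw [ev2_shift] at this
    rwa [sub_add_cancel] at this
  have h4 : 0 < (1 / x) ^ L.length := by positivity
  have h5 : 0 ≤ (1 / x) ^ L.length * ev2 L x r := by
    rw [← h2]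
    exact mul_nonneg (by positivity) h3
  exact nonneg_of_mul_nonneg_right h5 h4

/-- multiply the coefficient of `r^i` by `2^(n-i)` -/
def half : ℕ → List ℤ → List ℤ
  | _, [] => []
  | 0, c :: _ => [c]
  | n + 1, c :: l => (2 ^ (n + 1) * c) :: half n l

theorem ev_half (n : ℕ) (l : List ℤ) (hl : l.length ≤ n + 1) (r : ℝ) :
    ev (half n l) r = 2 ^ n * ev l (r / 2) := by
  induction l generalizing n with
  | nil => simp [half, ev]
  | cons c l ih =>
    cases n with
    | zero =>
      have : l = [] := by
        rw [List.length_cons] at hl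
        exact List.length_eq_zero_iff.mp (by omega)
      subst this
      simp [half, ev]
    | succ n =>
      simp only [half, ev]
      rw [ih n (by rw [List.length_cons] at hl; omega)]
      push_cast
      ring

def half2 : ℕ → List (List ℤ) → List (List ℤ)
  | _, [] => []
  | 0, c :: _ => [c]
  | n + 1, c :: l => smul (2 ^ (n + 1)) c :: half2 n l

theorem ev2_half (n : ℕ) (l : List (List ℤ)) (hl : l.length ≤ n + 1) (x r : ℝ) :
    ev2 (half2 n l) x r = 2 ^ n * ev2 l (x / 2) r := by
  induction l generalizing n with
  | nil => simp [half2, ev2]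
  | cons c l ih =>
    cases n with
    | zero =>
      have : l = [] := by
        rw [List.length_cons] at hl
        exact List.length_eq_zero_iff.mp (by omega)
      subst this
      simp [half2, ev2]
    | succ n =>
      simp only [half2, ev2, ev_smul]
      rw [ih n (by rw [List.length_cons] at hl; omega)]
      push_cast
      ring

theorem ev2_map {f : List ℤ → List ℤ} {a : ℝ} {g : ℝ → ℝ} (L : List (List ℤ))
    (h : ∀ l ∈ L, ∀ r, ev (f l) r = a * ev l (g r)) (x r : ℝ) :
    ev2 (L.map f) x r = a * ev2 L x (g r) := by
  induction L with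
  | nil => simp [ev2]
  | cons c l ih =>
    simp only [List.map_cons, ev2]
    rw [h c (List.mem_cons_self), ih fun d hd => h d (List.mem_cons_of_mem _ hd)]
    ring

/-- The recursive test: `dx, dr` bound the degrees. The direction of the split alternates. -/
def chk (dx dr : ℕ) : ℕ → Bool → List (List ℤ) → Bool
  | 0, _, L => nn2 L
  | k + 1, true, L => nn2 L || (decide (L.length ≤ dx + 1) &&
      (chk dx dr k false (half2 dx L) && chk dx dr k false (shift2 (half2 dx L))))
  | k + 1, false, L => nn2 L || (L.all (fun l => decide (l.length ≤ dr + 1)) &&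
      (chk dx dr k true (L.map (half dr)) && chk dx dr k true (L.map (fun l => shift (half dr l)))))

theorem chk_sound (dx dr k : ℕ) (d : Bool) (L : List (List ℤ)) (h : chk dx dr k d L = true) :
    ∀ x r : ℝ, 0 ≤ x → x ≤ 1 → 0 ≤ r → r ≤ 1 → 0 ≤ ev2 L x r := by
  induction k generalizing d L with
  | zero =>
    intro x r h0 h1 h2 h3
    unfold chk at h
    exact nn2_sound h h0 h1 h2 h3
  | succ k ih =>
    intro x r h0 h1 h2 h3
    cases d with
    | true =>
      simp only [chk, Bool.or_eq_true, Bool.and_eq_true, decide_eq_true_iff] at h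
      rcases h with h | ⟨hl, ha, hb⟩
      · exact nn2_sound h h0 h1 h2 h3
      · rcases le_total x (1 / 2) with hx | hx
        · have := ih false _ ha (2 * x) r (by linarith) (by linarith) h2 h3
          rw [ev2_half dx L hl] at this
          have e : 2 * x / 2 = x := by ring
          rw [e] at this
          exact nonneg_of_mul_nonneg_right this (by positivity)
        · have := ih false _ hb (2 * x - 1) r (by linarith) (by linarith) h2 h3
          rw [ev2_shift, ev2_half dx L hl] at this
          have e : (2 * x - 1 + 1) / 2 = x := by ring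
          rw [e] at this
          exact nonneg_of_mul_nonneg_right this (by positivity)
    | false =>
      simp only [chk, Bool.or_eq_true, Bool.and_eq_true] at h
      rcases h with h | ⟨hl, ha, hb⟩
      · exact nn2_sound h h0 h1 h2 h3
      · rw [List.all_eq_true] at hl
        have hl' : ∀ l ∈ L, l.length ≤ dr + 1 := fun l hl1 => of_decide_eq_true (hl l hl1)
        rcases le_total r (1 / 2) with hx | hx
        · have := ih true _ ha x (2 * r) h0 h1 (by linarith) (by linarith)
          rw [ev2_map (g := fun r => r / 2) (a := 2 ^ dr) L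
            (fun l hl1 r => ev_half dr l (hl' l hl1) r)] at this
          have e : 2 * r / 2 = r := by ring
          rw [e] at this
          exact nonneg_of_mul_nonneg_right this (by positivity)
        · have := ih true _ hb x (2 * r - 1) h0 h1 (by linarith) (by linarith)
          rw [ev2_map (g := fun r => (r + 1) / 2) (a := 2 ^ dr) L
            (fun l hl1 r => by rw [ev_shift, ev_half dr l (hl' l hl1)])] at this
          have e : (2 * r - 1 + 1) / 2 = r := by ring
          rw [e] at this
          exact nonneg_of_mul_nonneg_right this (by positivity)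

end Pool.Agent.Helper2.OC.Bern
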