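import Pool.Agent.Helper2.OC.CertPoly

/-!
# A concrete certificate
-/

namespace Pool.Agent.Helper2.OC.C8

open Bern

def h : List (List ℤ) := [
  [0, 30160726, -199378513, 490222470, -509242349, 231908588, 107741543, -8728027, 1375],
  [6671845, -65656665, 597968221, -1566658152, 1577531190, -1334924421, -205274441, 8715069],
  [-9064793, 62313024, -731359354, 1700780534, -450309539, 2086958610, 97581214],
  [15506275, 120837489, 660097475, -1608489928, -2164310643, -984027018],
  [-9008364, -531659255, -239716546, 2400568072, 1546351393],
  [-16698105, 651549817, -673428449, -1416142528],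
  [53686066, -196439168, 584631438],
  [-67416116, -66839421],
  [31175568]]

def q : ℤ := 10000000
def v : ℤ := 10309000

theorem t0 : hd0 (comp2 X0 Z0 h) = true := by decide +kernel
theorem t1 : hd0 (dynP h q) = true := by decide +kernel
theorem c1 : chk 17 16 8 true (dynP h q).tail = true := by decide +kernel
theorem c2 : chk 9 7 8 true (slopeP h q) = true := by decide +kernel
theorem c3 : chk 8 8 8 true (comp2 X0 Z0 h).tail = true := by decide +kernel
theorem c4 : chk 9 8 8 true (leP h v) = true := by decide +kernel

theorem cert : Cert (fun x y => 1 / (q : ℝ) * ev2 h x (2 * y)) ((v : ℝ) / q) :=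
  cert_of_poly h q v (by decide) t0 t1 (chk_sound _ _ _ _ _ c1) (chk_sound _ _ _ _ _ c2)
    (chk_sound _ _ _ _ _ c3) (chk_sound _ _ _ _ _ c4)

end Pool.Agent.Helper2.OC.C8
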