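import Pool.Agent.Helper2.OC.Step

/-!
# From a certificate (a polynomial in two variables) to a lower bound for `f n`
-/

namespace Pool.Agent.Helper2.OC

open Finset
open scoped ENNReal

/-- A certificate with value `V`, in the variables `x` (fraction of components in which a colour is
used) and `y` (fraction in which it is dead). -/
structure Cert (G : ℝ → ℝ → ℝ) (V : ℝ) : Prop where
  quad : Quad G
  zero : G 0 0 = 0
  slope : ∀ x x' y : ℝ, 0 ≤ y → y ≤ x → x ≤ x' → x' ≤ 1 → G x y + (x' - x) / 3 ≤ G x' y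
  dyn : ∀ x y : ℝ, 0 ≤ y → y ≤ x → x ≤ 1 →
    G x y + (x - y) * (2 - x) / 3 ≤ G (2 * x - x ^ 2) (2 * y - y ^ 2 + (x - y) ^ 2 / 2)
  nonneg : ∀ x y : ℝ, 0 ≤ y → y ≤ x → x ≤ 1 → 0 ≤ G x y
  le : ∀ x y : ℝ, 0 ≤ y → y ≤ x → x ≤ 1 → G x y ≤ V

section

variable {α β : Type*} [Fintype α] [Fintype β] [DecidableEq α] [DecidableEq β]

theorem xs_mst_le {c : ℕ} {s0 s' : β → Bool → Finset ℕ} (h : ∀ j σ, s0 j σ ⊆ s' j σ) :
    xs c s0 ≤ xs c s' := by
  unfold xs
  exact div_le_div_of_nonneg_right (Finset.sum_le_sum fun j _ => us_mono (h j)) (Nat.cast_nonneg _)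

/-- One step of the potential. -/
theorem cert_step {G : ℝ → ℝ → ℝ} {V : ℝ} (hG : Cert G V) :
    ∃ A : ℝ, 0 ≤ A ∧ ∀ (α β : Type) [Fintype α] [Fintype β] [DecidableEq α] [DecidableEq β],
      Fintype.card α = 2 * Fintype.card β → 3 ≤ Fintype.card β →
      ∀ (s : α → Bool → Finset ℕ), (∀ i σ, ∃ c ∈ s i σ, c ∉ s i (!σ)) →
      ∀ (F : (α ≃ β × Bool) × (β → Bool) → β → Bool → Finset ℕ),
      (∀ o j σ, mst s o j σ ⊆ F o j σ) → (∀ o j c, de c (F o j) = de c (mst s o j)) →
      (∀ o j σ, ∃ c ∈ F o j σ, c ∉ F o j (!σ)) →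
      ∀ P : Finset ℕ, (∀ o j σ, F o j σ ⊆ P) →
      (Fintype.card ((α ≃ β × Bool) × (β → Bool)) : ℝ) *
        (∑ c ∈ P, G (xs c s) (ys c s) + 1 - A * (∑ c ∈ P, xs c s) / Fintype.card β) ≤
      ∑ o : (α ≃ β × Bool) × (β → Bool), ∑ c ∈ P, G (xs c (F o)) (ys c (F o)) := by
  obtain ⟨Gx, Gy, L, hL, hq⟩ := hG.quad
  refine ⟨42 * L + 2 / 3, by positivity, ?_⟩
  intro α β _ _ _ _ hcard h3 s hs F hF hde hsat P hP
  set W : ℝ := (Fintype.card ((α ≃ β × Bool) × (β → Bool)) : ℝ) with hW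
  have hW0 : 0 ≤ W := Nat.cast_nonneg _
  set b : ℝ := (Fintype.card β : ℝ) with hb
  have hb3 : (3 : ℝ) ≤ b := by rw [hb]; exact_mod_cast h3
  have hb0 : 0 < b := by linarith
  -- one colour
  have h1 : ∀ c ∈ P, W * (G (xs c s) (ys c s) + (xs c s - ys c s) * (2 - xs c s) / 3 -
      42 * L * xs c s / b) + (∑ o : (α ≃ β × Bool) × (β → Bool),
        (xs c (F o) - xs c (mst s o))) / 3 ≤
      ∑ o : (α ≃ β × Bool) × (β → Bool), G (xs c (F o)) (ys c (F o)) := by
    intro c _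
    have e1 := avg_quad hcard h3 hL hq c s
    rw [← hW, ← hb] at e1
    have e2 := hG.dyn (xs c s) (ys c s) (ys_nonneg c s) (ys_le_xs c s) (xs_le_one c s)
    have e3 : ∀ o : (α ≃ β × Bool) × (β → Bool),
        G (xs c (mst s o)) (ys c (mst s o)) + (xs c (F o) - xs c (mst s o)) / 3 ≤
          G (xs c (F o)) (ys c (F o)) := by
      intro o
      have hy : ys c (F o) = ys c (mst s o) := by
        unfold ys
        rw [Finset.sum_congr rfl fun j _ => hde o j c]
      rw [hy]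
      exact hG.slope _ _ _ (ys_nonneg _ _) (ys_le_xs _ _) (xs_mst_le (hF o)) (xs_le_one _ _)
    have e4 := Finset.sum_le_sum fun (o : (α ≃ β × Bool) × (β → Bool)) (_ : o ∈ Finset.univ) => e3 o
    rw [Finset.sum_add_distrib, ← Finset.sum_div] at e4
    have e5 : W * (G (xs c s) (ys c s) + (xs c s - ys c s) * (2 - xs c s) / 3 -
        42 * L * xs c s / b) ≤ W * (G (2 * xs c s - xs c s ^ 2)
          (2 * ys c s - ys c s ^ 2 + (xs c s - ys c s) ^ 2 / 2) - 42 * L * xs c s / b) :=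
      mul_le_mul_of_nonneg_left (by linarith) hW0
    linarith
  have h2 := Finset.sum_le_sum h1
  rw [Finset.sum_comm (s := P)] at h2
  refine le_trans ?_ h2
  have h3' := intro_bound hcard h3 s hs F hF hsat hP
  rw [← hW, ← hb, Finset.sum_comm] at h3'
  rw [Finset.sum_add_distrib, ← Finset.sum_div, ← Finset.mul_sum]
  have h4 : ∑ c ∈ P, (G (xs c s) (ys c s) + (xs c s - ys c s) * (2 - xs c s) / 3 -
      42 * L * xs c s / b) = ∑ c ∈ P, G (xs c s) (ys c s) +
        (∑ c ∈ P, ((xs c s - ys c s) * (2 - xs c s) + 2 * xs c s / b)) / 3 -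
        (42 * L + 2 / 3) * (∑ c ∈ P, xs c s) / b := by
    rw [Finset.sum_div, Finset.mul_sum, Finset.sum_div, ← Finset.sum_add_distrib,
      ← Finset.sum_sub_distrib]
    refine Finset.sum_congr rfl fun c _ => ?_
    ring
  rw [h4]
  nlinarith

/-- The average number of used colours does not decrease. -/
theorem xs_le_xs_mst (hcard : Fintype.card α = 2 * Fintype.card β) (c : ℕ)
    (s : α → Bool → Finset ℕ) (o : (α ≃ β × Bool) × (β → Bool)) :
    xs c s ≤ xs c (mst s o) := by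
  unfold xs
  rw [hcard]
  push_cast
  have h1 : ∑ i, us c (s i) = ∑ j : β, (us c (s (o.1.symm (j, false))) +
      us c (s (o.1.symm (j, true)))) := by
    rw [← Equiv.sum_comp o.1.symm, Fintype.sum_prod_type]
    refine Finset.sum_congr rfl fun j _ => ?_
    rw [Fintype.sum_bool, add_comm]
  have h2 : ∑ i, us c (s i) ≤ 2 * ∑ j, us c (mst s o j) := by
    rw [h1, Finset.mul_sum]
    refine Finset.sum_le_sum fun j _ => ?_
    have e : us c (mst s o j) = 1 - (1 - us c (s (o.1.symm (j, false)))) *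
        (1 - us c (s (o.1.symm (j, true)))) := us_mrg _ _ _ _
    rw [e]
    have a1 := us_nonneg c (s (o.1.symm (j, false)))
    have a2 := us_nonneg c (s (o.1.symm (j, true)))
    have a3 := us_le_one c (s (o.1.symm (j, false)))
    have a4 := us_le_one c (s (o.1.symm (j, true)))
    nlinarith [mul_nonneg (sub_nonneg.mpr a3) (sub_nonneg.mpr a4), mul_nonneg a1 (sub_nonneg.mpr a4),
      mul_nonneg a2 (sub_nonneg.mpr a3)]
  rcases (Nat.cast_nonneg (Fintype.card β) : (0:ℝ) ≤ Fintype.card β).eq_or_lt with h | h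
  · rw [← h]; simp
  · rw [div_le_div_iff₀ (by positivity) h]
    nlinarith

end

/-- all colours of a population -/
def pal {M : ℕ} (s : Pop M) : Finset ℕ :=
  Finset.univ.biUnion fun i => s i false ∪ s i true

theorem subset_pal {M : ℕ} (s : Pop M) (i : Fin M) (σ : Bool) : s i σ ⊆ pal s := by
  intro c hc
  unfold pal
  rw [Finset.mem_biUnion]
  refine ⟨i, Finset.mem_univ _, ?_⟩
  rw [Finset.mem_union]
  cases σ
  · exact Or.inl hc
  · exact Or.inr hc

theorem pal_subset {M : ℕ} {s : Pop M} {P : Finset ℕ} (h : ∀ i σ, s i σ ⊆ P) : pal s ⊆ P := by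
  intro c hc
  unfold pal at hc
  rw [Finset.mem_biUnion] at hc
  obtain ⟨i, _, hi⟩ := hc
  rw [Finset.mem_union] at hi
  rcases hi with hi | hi
  · exact h _ _ hi
  · exact h _ _ hi

theorem xs_of_not_mem {M : ℕ} {s : Pop M} {c : ℕ} (h : c ∉ pal s) : xs c s = 0 := by
  unfold xs
  rw [Finset.sum_eq_zero, zero_div]
  intro i _
  unfold us
  rw [if_neg]
  rintro (h1 | h1)
  · exact h (subset_pal s i _ h1)
  · exact h (subset_pal s i _ h1)

theorem ys_of_not_mem {M : ℕ} {s : Pop M} {c : ℕ} (h : c ∉ pal s) : ys c s = 0 :=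
  le_antisymm ((ys_le_xs c s).trans_eq (xs_of_not_mem h)) (ys_nonneg c s)

/-- the potential -/
noncomputable def pot (G : ℝ → ℝ → ℝ) (η : ℝ) {M : ℕ} (s : Pop M) : ℝ :=
  ∑ c ∈ pal s, G (xs c s) (ys c s) + η * (∑ c ∈ pal s, xs c s + 1)

theorem pot_eq {G : ℝ → ℝ → ℝ} (h0 : G 0 0 = 0) (η : ℝ) {M : ℕ} {s : Pop M} {P : Finset ℕ}
    (hP : pal s ⊆ P) :
    pot G η s = ∑ c ∈ P, G (xs c s) (ys c s) + η * (∑ c ∈ P, xs c s + 1) := by
  unfold pot
  rw [Finset.sum_subset hP (f := fun c => G (xs c s) (ys c s)), Finset.sum_subset hP (f := fun c => xs c s)]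
  · intro c _ hc
    exact xs_of_not_mem hc
  · intro c _ hc
    rw [xs_of_not_mem hc, ys_of_not_mem hc, h0]

/-- the number of components at level `t` -/
def Nt (R T t : ℕ) : ℕ := R * 2 ^ (T - t)

theorem Nt_succ (R T t : ℕ) (h : t < T) : Nt R T t = 2 * Nt R T (t + 1) := by
  unfold Nt
  have : T - t = (T - (t + 1)) + 1 := by omega
  rw [this, pow_succ]
  ring

theorem card_vtx (R T : ℕ) : Fintype.card (Vtx T (Nt R T)) ≤ 4 * R * 2 ^ T := by
  have h1 : Fintype.card (Vtx T (Nt R T)) = ∑ t : Fin (T + 1), Nt R T t * 2 := by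
    have : Fintype.card (Vtx T (Nt R T)) =
        Fintype.card (Σ t : Fin (T + 1), (Fin (Nt R T t) × Bool)) :=
      Fintype.card_congr (Equiv.refl _)
    rw [this, Fintype.card_sigma]
    refine Finset.sum_congr rfl fun t _ => ?_
    rw [Fintype.card_prod, Fintype.card_fin, Fintype.card_bool]
  rw [h1, ← Finset.sum_mul]
  have h2 : ∀ T : ℕ, ∑ t : Fin (T + 1), Nt R T t + R = 2 * R * 2 ^ T := by
    intro T
    rw [Fin.sum_univ_eq_sum_range (fun t => Nt R T t)]
    induction T with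
    | zero => simp [Nt]; ring
    | succ T ih =>
      rw [Finset.sum_range_succ' _ (T + 1)]
      have h3 : ∀ t, Nt R (T + 1) (t + 1) = Nt R T t := by
        intro t
        unfold Nt
        congr 2
        omega
      rw [Finset.sum_congr rfl fun t _ => h3 t]
      have : Nt R (T + 1) 0 = 2 * R * 2 ^ T := by
        unfold Nt
        rw [Nat.sub_zero, pow_succ]
        ring
      rw [this]
      have e : 2 * R * 2 ^ (T + 1) = 2 * (2 * R * 2 ^ T) := by ring
      rw [e, ← ih]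
      ring
  have h3 := h2 T
  nlinarith

theorem main_game {G : ℝ → ℝ → ℝ} {V : ℝ} (hG : Cert G V) :
    ∃ A : ℝ, 0 ≤ A ∧ ∀ R T : ℕ, 3 ≤ R → ∀ n, 4 * R * 2 ^ T ≤ n → 0 < V + 4 * A / R →
      ENNReal.ofReal (T / (V + 4 * A / R)) ≤ f n := by
  obtain ⟨A, hA, hstep⟩ := cert_step hG
  refine ⟨A, hA, ?_⟩
  intro R T hR n hn hpos
  have hR' : (3 : ℝ) ≤ R := by exact_mod_cast hR
  have key := game_bound T (Nt R T) (fun t => by
      unfold Nt
      exact Nat.mul_le_mul_left _ (Nat.pow_le_pow_right (by norm_num) (by omega)))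
    (fun t ht => by
      refine ⟨Fintype.equivOfCardEq ?_⟩
      rw [Fintype.card_fin, Fintype.card_prod, Fintype.card_fin, Fintype.card_bool, Nt_succ R T t ht]
      ring)
    (fun t s => pot G (2 * A / Nt R T t) s) 0 (V + 4 * A / R) hpos ?_ ?_ ?_ n ((card_vtx R T).trans hn)
  · simpa using key
  · -- the start
    intro s _
    rw [neg_zero]
    unfold pot
    refine add_nonneg (Finset.sum_nonneg fun c _ => hG.nonneg _ _ (ys_nonneg _ _) (ys_le_xs _ _)
      (xs_le_one _ _)) ?_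
    refine mul_nonneg (by positivity) (add_nonneg (Finset.sum_nonneg fun c _ => xs_nonneg _ _)
      zero_le_one)
  · -- one step
    intro t ht s hs F hF
    have hNN : Nt R T t = 2 * Nt R T (t + 1) := Nt_succ R T t ht
    have hN3 : 3 ≤ Nt R T (t + 1) := by
      have : 1 ≤ 2 ^ (T - (t + 1)) := Nat.one_le_two_pow
      unfold Nt
      nlinarith
    have hN3' : (3 : ℝ) ≤ (Nt R T (t + 1) : ℝ) := by exact_mod_cast hN3
    set P : Finset ℕ := pal s ∪ Finset.univ.biUnion (fun o => pal (F o)) with hP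
    have hPF : ∀ o, pal (F o) ⊆ P := fun o =>
      (Finset.subset_biUnion_of_mem (fun o => pal (F o)) (Finset.mem_univ o)).trans
        Finset.subset_union_right
    have h1 := hstep (Fin (Nt R T t)) (Fin (Nt R T (t + 1))) (by rw [Fintype.card_fin, Fintype.card_fin, hNN])
      (by rw [Fintype.card_fin]; exact hN3) s hs F (fun o j σ => (hF o).subset j σ)
      (fun o j c => (hF o).de_eq j c) (fun o j σ => (hF o).sat j σ) P
      (fun o j σ => (subset_pal (F o) j σ).trans (hPF o))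
    rw [pot_eq hG.zero _ (Finset.subset_union_left : pal s ⊆ P)]
    rw [Finset.sum_congr rfl fun o _ => pot_eq hG.zero (2 * A / (Nt R T (t + 1) : ℝ)) (hPF o), Finset.sum_add_distrib]
    rw [Fintype.card_fin] at h1
    have h2 : ∀ o : Om (Nt R T) t, ∑ c ∈ P, xs c s + 1 ≤ ∑ c ∈ P, xs c (F o) + 1 := by
      intro o
      have : ∑ c ∈ P, xs c s ≤ ∑ c ∈ P, xs c (F o) := by
        refine Finset.sum_le_sum fun c _ => ?_
        exact (xs_le_xs_mst (by rw [Fintype.card_fin, Fintype.card_fin, hNN]) c s o).trans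
          (xs_mst_le (fun j σ => (hF o).subset j σ))
      linarith
    have h3 : ∑ _o : Om (Nt R T) t, (2 * A / (Nt R T (t + 1) : ℝ)) * (∑ c ∈ P, xs c s + 1) ≤
        ∑ o : Om (Nt R T) t, (2 * A / (Nt R T (t + 1) : ℝ)) * (∑ c ∈ P, xs c (F o) + 1) :=
      Finset.sum_le_sum fun o _ => mul_le_mul_of_nonneg_left (h2 o) (by positivity)
    rw [Finset.sum_const, Finset.card_univ, nsmul_eq_mul] at h3
    refine le_trans ?_ (add_le_add h1 h3)
    rw [← mul_add]
    refine mul_le_mul_of_nonneg_left ?_ (Nat.cast_nonneg _)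
    have hNr : (Nt R T t : ℝ) = 2 * (Nt R T (t + 1) : ℝ) := by rw [hNN]; push_cast; ring
    rw [hNr]
    have hx : 0 ≤ ∑ c ∈ P, xs c s := Finset.sum_nonneg fun c _ => xs_nonneg _ _
    have e : 2 * A / (2 * (Nt R T (t + 1) : ℝ)) = A / (Nt R T (t + 1) : ℝ) := by
      field_simp
    rw [e]
    have e2 : 2 * A / (Nt R T (t + 1) : ℝ) * (∑ c ∈ P, xs c s + 1) =
        A / (Nt R T (t + 1) : ℝ) * (∑ c ∈ P, xs c s + 1) +
          A * (∑ c ∈ P, xs c s) / (Nt R T (t + 1) : ℝ) + A / (Nt R T (t + 1) : ℝ) := by ring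
    rw [e2]
    have : 0 ≤ A / (Nt R T (t + 1) : ℝ) := by positivity
    linarith
  · -- the end
    intro s hs P hP
    have hN : Nt R T T = R := by unfold Nt; simp
    have hNr : (Nt R T T : ℝ) = R := by rw [hN]
    rw [pot_eq hG.zero _ (pal_subset hP), hNr]
    have hP1 : (1 : ℝ) ≤ P.card := by
      have : 0 < P.card := by
        have hR0 : 0 < Nt R T T := by rw [hN]; omega
        obtain ⟨c, hc, _⟩ := hs ⟨0, hR0⟩ false
        exact Finset.card_pos.mpr ⟨c, hP _ _ hc⟩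
      exact_mod_cast this
    have h1 : ∑ c ∈ P, G (xs c s) (ys c s) ≤ P.card * V := by
      rw [← nsmul_eq_mul]
      exact Finset.sum_le_card_nsmul _ _ _ fun c _ =>
        hG.le _ _ (ys_nonneg _ _) (ys_le_xs _ _) (xs_le_one _ _)
    have h2 : ∑ c ∈ P, xs c s ≤ P.card := by
      have := Finset.sum_le_card_nsmul P (fun c => xs c s) 1 fun c _ => xs_le_one _ _
      rwa [nsmul_eq_mul, mul_one] at this
    have h3 : 2 * A / R * (∑ c ∈ P, xs c s + 1) ≤ 2 * A / R * (2 * P.card) := by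
      refine mul_le_mul_of_nonneg_left ?_ (by positivity)
      linarith
    have h4 : 2 * A / R * (2 * (P.card : ℝ)) = 4 * A / R * P.card := by ring
    rw [h4] at h3
    linarith

/-- MAIN THEOREM for certificates. -/
theorem cert_bound {G : ℝ → ℝ → ℝ} {V s : ℝ} (hG : Cert G V) (hV : 0 < V) (hs : 0 < s)
    (hsV : s * V < 1) :
    ∃ C : ℝ, ∀ n : ℕ, 1 ≤ n → ENNReal.ofReal (s * Real.logb 2 n - C) ≤ f n := by
  obtain ⟨A, hA, h⟩ := main_game hG
  -- choose R
  obtain ⟨R, hR⟩ : ∃ R : ℕ, 3 ≤ R ∧ s * (V + 4 * A / R) ≤ 1 := by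
    obtain ⟨R, hR⟩ := exists_nat_gt (max 3 (4 * A * s / (1 - s * V)))
    have h1 : (3 : ℝ) < R := (le_max_left _ _).trans_lt hR
    have h2 : 4 * A * s / (1 - s * V) < R := (le_max_right _ _).trans_lt hR
    refine ⟨R, by exact_mod_cast h1.le, ?_⟩
    rw [div_lt_iff₀ (by linarith)] at h2
    have hR0 : (0 : ℝ) < R := by linarith
    have : s * (V + 4 * A / R) = s * V + 4 * A * s / R := by ring
    rw [this]
    have : 4 * A * s / R ≤ 1 - s * V := by
      rw [div_le_iff₀ hR0]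
      linarith
    linarith
  obtain ⟨hR3, hRs⟩ := hR
  have hR3' : (3 : ℝ) ≤ R := by exact_mod_cast hR3
  have hpos : 0 < V + 4 * A / R := by positivity
  refine ⟨s * (Real.logb 2 (8 * R)), ?_⟩
  intro n hn
  by_cases hsmall : n < 4 * R
  · rw [ENNReal.ofReal_of_nonpos]
    · exact zero_le
    · rw [← mul_sub]
      refine mul_nonpos_of_nonneg_of_nonpos hs.le (sub_nonpos.mpr ?_)
      refine Real.logb_le_logb_of_le (by norm_num) (by exact_mod_cast hn) ?_
      have : (n : ℝ) < 4 * R := by exact_mod_cast hsmall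
      linarith
  · push Not at hsmall
    -- T = floor log2 (n / 4R)
    set T := Nat.log 2 (n / (4 * R)) with hT
    have hdiv : n / (4 * R) ≠ 0 := by
      have : 0 < n / (4 * R) := Nat.div_pos hsmall (by omega)
      omega
    have h1 : 2 ^ T ≤ n / (4 * R) := Nat.pow_log_le_self 2 hdiv
    have h2 : 4 * R * 2 ^ T ≤ n := by
      calc 4 * R * 2 ^ T ≤ 4 * R * (n / (4 * R)) := Nat.mul_le_mul_left _ h1
        _ ≤ n := Nat.mul_div_le _ _
    have h3 : n / (4 * R) < 2 ^ (T + 1) := Nat.lt_pow_succ_log_self (by norm_num) _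
    have h4 : n < 4 * R * 2 ^ (T + 1) := by
      rw [Nat.div_lt_iff_lt_mul (by omega)] at h3
      rwa [mul_comm] at h3
    refine le_trans (ENNReal.ofReal_le_ofReal ?_) (h R T hR3 n h2 hpos)
    rw [← mul_sub]
    have h5 : Real.logb 2 n - Real.logb 2 (8 * R) ≤ T := by
      rw [sub_le_iff_le_add]
      have e : (T : ℝ) + Real.logb 2 (8 * R) = Real.logb 2 (2 ^ T * (8 * R)) := by
        symm
        rw [Real.logb_mul (by positivity) (by positivity), Real.logb_pow,
          Real.logb_self_eq_one (by norm_num), mul_one]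
      rw [e]
      refine Real.logb_le_logb_of_le (by norm_num) (by exact_mod_cast hn) ?_
      have : (n : ℝ) < 4 * R * 2 ^ (T + 1) := by exact_mod_cast h4
      rw [pow_succ] at this
      linarith
    rw [le_div_iff₀ hpos]
    have hT0 : (0 : ℝ) ≤ T := Nat.cast_nonneg _
    calc s * (Real.logb 2 n - Real.logb 2 (8 * R)) * (V + 4 * A / R)
        = (s * (V + 4 * A / R)) * (Real.logb 2 n - Real.logb 2 (8 * R)) := by ring
      _ ≤ (s * (V + 4 * A / R)) * T := mul_le_mul_of_nonneg_left h5 (by positivity)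
      _ ≤ 1 * T := mul_le_mul_of_nonneg_right hRs hT0
      _ = T := one_mul _

end Pool.Agent.Helper2.OC
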