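import Pool.Agent.Helper2.OC.Bern
import Pool.Agent.Helper2.OC.Main

/-!
# Polynomial certificates, checked by the kernel
-/

namespace Pool.Agent.Helper2.OC

open Bern

theorem Quad.ev (l : List ℤ) : Quad (fun _ y => ev l (2 * y)) := by
  induction l with
  | nil => simp only [Bern.ev]; exact Quad.const 0
  | cons c l ih =>
    simp only [Bern.ev]
    exact (Quad.const (c : ℝ)).add (((Quad.const 2).mul Quad.snd).mul ih)

theorem Quad.ev2 (L : List (List ℤ)) : Quad (fun x y => ev2 L x (2 * y)) := by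
  induction L with
  | nil => simp only [Bern.ev2]; exact Quad.const 0
  | cons l L ih =>
    simp only [Bern.ev2]
    exact (Quad.ev l).add (Quad.fst.mul ih)

/-- derivative in the first variable -/
def der2 : List (List ℤ) → List (List ℤ)
  | [] => []
  | _ :: L => add2 L ([] :: der2 L)

theorem hasDerivAt_ev2 (L : List (List ℤ)) (x z : ℝ) :
    HasDerivAt (fun x => ev2 L x z) (ev2 (der2 L) x z) x := by
  induction L with
  | nil => simp only [Bern.ev2, der2]; exact hasDerivAt_const _ _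
  | cons l L ih =>
    simp only [Bern.ev2, der2, ev2_add, Bern.ev]
    have h1 : HasDerivAt (fun x => x * ev2 L x z) (1 * ev2 L x z + x * ev2 (der2 L) x z) x :=
      (hasDerivAt_id x).mul ih
    have h2 := h1.const_add (Bern.ev l z)
    refine h2.congr_deriv ?_
    ring

/-- the first row vanishes -/
def hd0 : List (List ℤ) → Bool
  | [] => true
  | l :: _ => l.all (fun c => decide (c = 0))

theorem ev_eq_zero {l : List ℤ} (h : l.all (fun c => decide (c = 0)) = true) (r : ℝ) :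
    ev l r = 0 := by
  induction l with
  | nil => rfl
  | cons c l ih =>
    rw [List.all_cons, Bool.and_eq_true, decide_eq_true_iff] at h
    simp only [Bern.ev]
    rw [h.1, ih h.2]
    simp

theorem ev2_of_hd0 {L : List (List ℤ)} (h : hd0 L = true) (x r : ℝ) :
    ev2 L x r = x * ev2 L.tail x r := by
  cases L with
  | nil => simp [Bern.ev2]
  | cons l L =>
    simp only [Bern.ev2, List.tail_cons]
    rw [ev_eq_zero h, zero_add]

def X0 : List (List ℤ) := [[], [1]]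
def Z0 : List (List ℤ) := [[], [0, 2]]
def X1 : List (List ℤ) := [[], [2], [-1]]
def Z1 : List (List ℤ) := [[], [0, 4], [1, -2, -1]]

theorem ev2_X0 (x r : ℝ) : ev2 X0 x r = x := by simp [X0, Bern.ev2, Bern.ev]
theorem ev2_Z0 (x r : ℝ) : ev2 Z0 x r = 2 * (x * r) := by simp [Z0, Bern.ev2, Bern.ev]; ring
theorem ev2_X1 (x r : ℝ) : ev2 X1 x r = 2 * x - x ^ 2 := by
  simp [X1, Bern.ev2, Bern.ev]; ring
theorem ev2_Z1 (x r : ℝ) :
    ev2 Z1 x r = 2 * (2 * (x * r) - (x * r) ^ 2 + (x - x * r) ^ 2 / 2) := by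
  simp [Z1, Bern.ev2, Bern.ev]; ring

/-- polynomial of the dynamics inequality -/
def dynP (h : List (List ℤ)) (q : ℤ) : List (List ℤ) :=
  add2 (smul2 3 (add2 (comp2 X1 Z1 h) (smul2 (-1) (comp2 X0 Z0 h))))
    (smul2 (-q) [[], [2, -2], [-1, 1]])

def slopeP (h : List (List ℤ)) (q : ℤ) : List (List ℤ) :=
  add2 (smul2 3 (comp2 X0 Z0 (der2 h))) [[-q]]

def leP (h : List (List ℤ)) (v : ℤ) : List (List ℤ) :=
  add2 [[v]] (smul2 (-1) (comp2 X0 Z0 h))

theorem exists_ratio {x y : ℝ} (h0 : 0 ≤ y) (h1 : y ≤ x) (_h2 : x ≤ 1) :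
    ∃ r : ℝ, 0 ≤ r ∧ r ≤ 1 ∧ y = x * r := by
  rcases (h0.trans h1).eq_or_lt with hx | hx
  · refine ⟨0, le_rfl, zero_le_one, ?_⟩
    rw [← hx] at h1 ⊢
    linarith
  · refine ⟨y / x, div_nonneg h0 hx.le, div_le_one_of_le₀ h1 hx.le, ?_⟩
    field_simp

/-- A certificate from kernel-checked tests. -/
theorem cert_of_poly (h : List (List ℤ)) (q v : ℤ) (hq : 0 < q)
    (t0 : hd0 (comp2 X0 Z0 h) = true) (t1 : hd0 (dynP h q) = true)
    (c1 : ∀ x r : ℝ, 0 ≤ x → x ≤ 1 → 0 ≤ r → r ≤ 1 → 0 ≤ ev2 (dynP h q).tail x r)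
    (c2 : ∀ x r : ℝ, 0 ≤ x → x ≤ 1 → 0 ≤ r → r ≤ 1 → 0 ≤ ev2 (slopeP h q) x r)
    (c3 : ∀ x r : ℝ, 0 ≤ x → x ≤ 1 → 0 ≤ r → r ≤ 1 → 0 ≤ ev2 (comp2 X0 Z0 h).tail x r)
    (c4 : ∀ x r : ℝ, 0 ≤ x → x ≤ 1 → 0 ≤ r → r ≤ 1 → 0 ≤ ev2 (leP h v) x r) :
    Cert (fun x y => 1 / (q : ℝ) * ev2 h x (2 * y)) ((v : ℝ) / q) := by
  have hq' : (0 : ℝ) < q := by exact_mod_cast hq
  refine ⟨(Quad.const _).mul (Quad.ev2 h), ?_, ?_, ?_, ?_, ?_⟩
  · have := ev2_of_hd0 t0 0 0
    rw [ev2_comp2, ev2_X0, ev2_Z0] at this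
    simp only [mul_zero, zero_mul] at this ⊢
    rw [this]
    simp
  · intro x x' y hy hyx hxx' hx'
    have hmono : MonotoneOn (fun x => 3 * ev2 h x (2 * y) - q * x) (Set.Icc y 1) := by
      refine monotoneOn_of_deriv_nonneg (convex_Icc y 1) ?_ ?_ ?_
      · refine Continuous.continuousOn ?_
        have := continuous_ev2 h (2 * y)
        fun_prop
      · intro z _
        have := (((hasDerivAt_ev2 h z (2 * y)).const_mul 3).sub ((hasDerivAt_id z).const_mul (q:ℝ)))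
        exact this.differentiableAt.differentiableWithinAt
      · intro z hz
        rw [interior_Icc] at hz
        have := (((hasDerivAt_ev2 h z (2 * y)).const_mul 3).sub ((hasDerivAt_id z).const_mul (q:ℝ)))
        have hd : deriv (fun x => 3 * ev2 h x (2 * y) - q * x) z =
            3 * ev2 (der2 h) z (2 * y) - q * 1 := this.deriv
        rw [hd]
        obtain ⟨r, hr0, hr1, hr⟩ := exists_ratio hy hz.1.le hz.2.le
        have h1 := c2 z r (hy.trans hz.1.le) hz.2.le hr0 hr1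
        unfold slopeP at h1
        rw [ev2_add, ev2_smul, ev2_comp2, ev2_X0, ev2_Z0, ← hr] at h1
        simp only [Bern.ev2, Bern.ev] at h1
        push_cast at h1
        linarith
    have h1 := hmono (Set.mem_Icc.mpr ⟨hyx, hxx'.trans hx'⟩) (Set.mem_Icc.mpr ⟨hyx.trans hxx', hx'⟩) hxx'
    simp only at h1 ⊢
    have e : 1 / (q : ℝ) * ev2 h x' (2 * y) - (1 / (q : ℝ) * ev2 h x (2 * y) + (x' - x) / 3) =
        (1 / (3 * (q : ℝ))) * ((3 * ev2 h x' (2 * y) - q * x') -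
          (3 * ev2 h x (2 * y) - q * x)) := by
      field_simp
      ring
    have : 0 ≤ (1 / (3 * (q : ℝ))) * ((3 * ev2 h x' (2 * y) - q * x') -
          (3 * ev2 h x (2 * y) - q * x)) := mul_nonneg (by positivity) (by linarith)
    linarith
  · intro x y hy hyx hx1
    obtain ⟨r, hr0, hr1, hr⟩ := exists_ratio hy hyx hx1
    have hx0 : 0 ≤ x := hy.trans hyx
    have h1 := mul_nonneg hx0 (c1 x r hx0 hx1 hr0 hr1)
    rw [← ev2_of_hd0 t1] at h1
    unfold dynP at h1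
    rw [ev2_add, ev2_smul, ev2_add, ev2_comp2, ev2_smul, ev2_comp2, ev2_smul, ev2_X0, ev2_Z0,
      ev2_X1, ev2_Z1, ← hr] at h1
    simp only [Bern.ev2, Bern.ev] at h1
    push_cast at h1
    have hxr : x * ((1 - r) * (2 - x)) = (x - y) * (2 - x) := by rw [hr]; ring
    have e : 1 / (q : ℝ) * ev2 h (2 * x - x ^ 2) (2 * (2 * y - y ^ 2 + (x - y) ^ 2 / 2)) -
        (1 / (q : ℝ) * ev2 h x (2 * y) + (x - y) * (2 - x) / 3) =
        (1 / (3 * (q : ℝ))) * (3 * (ev2 h (2 * x - x ^ 2) (2 * (2 * y - y ^ 2 + (x - y) ^ 2 / 2)) -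
          ev2 h x (2 * y)) - q * (x * ((1 - r) * (2 - x)))) := by
      rw [hxr]
      field_simp
      ring
    have : 0 ≤ (1 / (3 * (q : ℝ))) *
        (3 * (ev2 h (2 * x - x ^ 2) (2 * (2 * y - y ^ 2 + (x - y) ^ 2 / 2)) -
          ev2 h x (2 * y)) - q * (x * ((1 - r) * (2 - x)))) := by
      refine mul_nonneg (by positivity) ?_
      linarith
    linarith
  · intro x y hy hyx hx1
    obtain ⟨r, hr0, hr1, hr⟩ := exists_ratio hy hyx hx1
    have hx0 : 0 ≤ x := hy.trans hyx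
    have h1 := mul_nonneg hx0 (c3 x r hx0 hx1 hr0 hr1)
    rw [← ev2_of_hd0 t0, ev2_comp2, ev2_X0, ev2_Z0, ← hr] at h1
    positivity
  · intro x y hy hyx hx1
    obtain ⟨r, hr0, hr1, hr⟩ := exists_ratio hy hyx hx1
    have hx0 : 0 ≤ x := hy.trans hyx
    have h1 := c4 x r hx0 hx1 hr0 hr1
    unfold leP at h1
    rw [ev2_add, ev2_smul, ev2_comp2, ev2_X0, ev2_Z0, ← hr] at h1
    simp only [Bern.ev2, Bern.ev] at h1
    push_cast at h1
    rw [div_mul_eq_mul_div, one_mul, div_le_div_iff_of_pos_right hq']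
    linarith

end Pool.Agent.Helper2.OC
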