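import Pool.Agent.Helper2.OC.Run

/-!
# The population game: a time-dependent potential gives a lower bound for `f n`
-/

namespace Pool.Agent.Helper2.OC

open scoped ENNReal

/-- Every component has a private colour on each side. -/
def Sat {M : ℕ} (s : Pop M) : Prop := ∀ j σ, ∃ c ∈ s j σ, c ∉ s j (!σ)

theorem Fixed.sat {M : ℕ} {s0 s' : Pop M} (h : Fixed s0 s') : Sat s' := by
  obtain ⟨χ, h1, h2⟩ := h
  intro j σ
  exact ⟨χ j σ, by rw [h1]; exact Finset.mem_insert_self _ _, h2 j σ⟩

section Average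

variable {T : ℕ} {Ω : Fin T → Type} [∀ t, Fintype (Ω t)]

/-- Resampling one coordinate. -/
theorem sum_update (t : Fin T) (F : (∀ t, Ω t) → ℝ) :
    ∑ ω : (∀ t, Ω t), ∑ x : Ω t, F (Function.update ω t x) =
      (Fintype.card (Ω t) : ℝ) * ∑ ω, F ω := by
  classical
  let E : ((∀ t, Ω t) × Ω t) ≃ ((∀ t, Ω t) × Ω t) :=
    { toFun := fun q => (Function.update q.1 t q.2, q.1 t)
      invFun := fun q => (Function.update q.1 t q.2, q.1 t)
      left_inv := by
        rintro ⟨ω, x⟩
        simp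
      right_inv := by
        rintro ⟨ω, x⟩
        simp }
  rw [← Fintype.sum_prod_type' (f := fun (ω : ∀ t, Ω t) (x : Ω t) => F (Function.update ω t x))]
  have h1 : ∑ q : (∀ t, Ω t) × Ω t, F (Function.update q.1 t q.2) =
      ∑ q : (∀ t, Ω t) × Ω t, F q.1 :=
    Fintype.sum_equiv E (fun q => F (Function.update q.1 t q.2)) (fun q => F q.1) (fun q => rfl)
  rw [h1, Fintype.sum_prod_type]
  simp only [Finset.sum_const, Finset.card_univ, nsmul_eq_mul]
  rw [Finset.mul_sum]

end Average

/-- MAIN REDUCTION.  A time-dependent potential which grows by `1` per round in expectation, whatever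
the fixes are, gives a lower bound for the cost of every randomised online algorithm. -/
theorem game_bound (T : ℕ) (N : ℕ → ℕ) (hN : ∀ t, N (t + 1) ≤ N t)
    (hΩ : ∀ t, t < T → Nonempty (Fin (N t) ≃ Fin (N (t + 1)) × Bool))
    (Φ : ∀ t : ℕ, Pop (N t) → ℝ) (C κ : ℝ) (hκ : 0 < κ)
    (h0 : ∀ s : Pop (N 0), Sat s → -C ≤ Φ 0 s)
    (hstep : ∀ t, t < T → ∀ s : Pop (N t), Sat s → ∀ F : Om N t → Pop (N (t + 1)),
      (∀ o, Fixed (pre s o) (F o)) →
      (Fintype.card (Om N t) : ℝ) * (Φ t s + 1) ≤ ∑ o, Φ (t + 1) (F o))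
    (hfin : ∀ s : Pop (N T), Sat s → ∀ P : Finset ℕ, (∀ i σ, s i σ ⊆ P) → Φ T s ≤ κ * P.card)
    (n : ℕ) (hn : Fintype.card (Vtx T N) ≤ n) :
    ENNReal.ofReal ((T - C) / κ) ≤ f n := by
  classical
  haveI : ∀ t : Fin T, Nonempty (Om N t) := fun t => by
    obtain ⟨e⟩ := hΩ t t.2
    exact ⟨(e, fun _ => false)⟩
  haveI : Nonempty (Hist T N) := ⟨fun t => Classical.arbitrary _⟩
  obtain ⟨ι⟩ : Nonempty (Vtx T N ↪o Fin n) := by
    let e : Fin (Fintype.card (Vtx T N)) ≃o Vtx T N := Fintype.orderIsoFinOfCardEq _ rfl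
    exact ⟨e.symm.toOrderEmbedding.trans (Fin.castLEOrderEmb hn)⟩
  -- the graphs do not depend on the algorithm
  let G : Hist T N → SimpleGraph (Fin n) := fun ω => (advGraph T N (up ω)).map ι.toEmbedding
  refine yao G (fun ω => map_colorable ι _ (adv_colorable T N _ (up_flip ω))) _ fun A => ?_
  obtain ⟨S, hloc, hS0, hS, hsub⟩ := exists_run T N hN ι A
  have hsat : ∀ ω, ∀ t, t ≤ T → Sat (S ω t) := by
    intro ω t ht
    rcases t with _ | t
    · exact (hS0 ω).sat
    · exact (hS ω ⟨t, ht⟩).sat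
  have hind : ∀ t, t ≤ T →
      ((t : ℝ) - C) * Fintype.card (Hist T N) ≤ ∑ ω, Φ t (S ω t) := by
    intro t
    induction t with
    | zero =>
      intro _
      have : ∑ _ω : Hist T N, (-C) ≤ ∑ ω, Φ 0 (S ω 0) :=
        Finset.sum_le_sum fun ω _ => h0 _ (hsat ω 0 (Nat.zero_le _))
      rw [Finset.sum_const, Finset.card_univ, nsmul_eq_mul] at this
      push_cast
      linarith
    | succ t ih =>
      intro ht
      have ht' : t < T := ht
      have ih' := ih ht'.le
      have h1 := sum_update (⟨t, ht'⟩ : Fin T) (Ω := fun t : Fin T => Om N t)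
        (fun ω => Φ (t + 1) (S ω (t + 1)))
      have h2 : ∀ ω : Hist T N, (Fintype.card (Om N t) : ℝ) * (Φ t (S ω t) + 1) ≤
          ∑ x : Om N t, Φ (t + 1) (S (Function.update ω (⟨t, ht'⟩ : Fin T) x) (t + 1)) := by
        intro ω
        refine hstep t ht' (S ω t) (hsat ω t ht'.le)
          (fun x => S (Function.update ω (⟨t, ht'⟩ : Fin T) x) (t + 1)) ?_
        intro x
        have h3 := hS (Function.update ω (⟨t, ht'⟩ : Fin T) x) ⟨t, ht'⟩
        have h4 : S (Function.update ω (⟨t, ht'⟩ : Fin T) x) t = S ω t := by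
          refine hloc _ _ t ht'.le ?_
          intro s hs
          rw [Function.update_of_ne]
          intro h
          rw [h] at hs
          exact lt_irrefl _ hs
        rw [Function.update_self] at h3
        simp only at h3
        rw [h4] at h3
        exact h3
      have h5 := Finset.sum_le_sum fun (ω : Hist T N) (_ : ω ∈ Finset.univ) => h2 ω
      have h6 : ∑ ω : Hist T N, ∑ x : Om N t,
          Φ (t + 1) (S (Function.update ω (⟨t, ht'⟩ : Fin T) x) (t + 1)) =
          (Fintype.card (Om N t) : ℝ) * ∑ ω, Φ (t + 1) (S ω (t + 1)) := h1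
      rw [h6, ← Finset.mul_sum] at h5
      have h7 : (0 : ℝ) < Fintype.card (Om N t) := by
        have := this
        haveI : Nonempty (Om N t) := ‹∀ t : Fin T, Nonempty (Om N t)› ⟨t, ht'⟩
        exact_mod_cast Fintype.card_pos
      have h8 := le_of_mul_le_mul_left h5 h7
      rw [Finset.sum_add_distrib, Finset.sum_const, Finset.card_univ, nsmul_eq_mul, mul_one] at h8
      push_cast
      linarith
  have h9 := hind T le_rfl
  have h10 : ∑ ω, Φ T (S ω T) ≤ ∑ ω, κ * (A.numColours (G ω) : ℝ) := by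
    refine Finset.sum_le_sum fun ω _ => ?_
    exact hfin _ (hsat ω T le_rfl) _ (fun i σ => hsub ω T i σ)
  rw [← Finset.mul_sum] at h10
  have h11 := h9.trans h10
  rw [div_mul_eq_mul_div, div_le_iff₀ hκ]
  linarith

end Pool.Agent.Helper2.OC
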