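import Pool.Agent.Helper2.OC.Model

/-!
# The adversary's random graph and its reduction to the population game
-/

namespace Pool.Agent.Helper2.OC

open scoped ENNReal

section Pos

/-- Position after `k` merging rounds starting at level `s`. -/
def pos (up : ℕ → ℕ × Bool → ℕ × Bool) (s : ℕ) : ℕ → ℕ × Bool → ℕ × Bool
  | 0, p => p
  | k + 1, p => up (s + k) (pos up s k p)

/-- Exchange the two sides. -/
def flipB (p : ℕ × Bool) : ℕ × Bool := (p.1, !p.2)

theorem pos_add (up : ℕ → ℕ × Bool → ℕ × Bool) (s k : ℕ) : ∀ (l : ℕ) (p : ℕ × Bool),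
    pos up s (k + l) p = pos up (s + k) l (pos up s k p)
  | 0, p => rfl
  | l + 1, p => by
      rw [← add_assoc]
      simp only [pos]
      rw [pos_add up s k l p, add_assoc]

theorem pos_flip (up : ℕ → ℕ × Bool → ℕ × Bool) (hup : ∀ t p, up t (flipB p) = flipB (up t p))
    (s : ℕ) : ∀ (k : ℕ) (p : ℕ × Bool), pos up s k (flipB p) = flipB (pos up s k p)
  | 0, p => rfl
  | k + 1, p => by
      simp only [pos]
      rw [pos_flip up hup s k p, hup]

theorem pos_congr {up up' : ℕ → ℕ × Bool → ℕ × Bool} {t : ℕ} (h : ∀ s, s < t → up s = up' s)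
    (s : ℕ) : ∀ (k : ℕ), s + k ≤ t → ∀ p, pos up s k p = pos up' s k p
  | 0, _, p => rfl
  | k + 1, hk, p => by
      simp only [pos]
      rw [pos_congr h s k (by omega) p, h (s + k) (by omega)]

end Pos

/-- The vertices: level `t ≤ T`, component `i < N t`, side. -/
abbrev Vtx (T : ℕ) (N : ℕ → ℕ) := Σₗ t : Fin (T + 1), (Fin (N t) ×ₗ Bool)

namespace Vtx

variable {T : ℕ} {N : ℕ → ℕ}

/-- level -/
def lvl (x : Vtx T N) : ℕ := ((ofLex x).1 : ℕ)
/-- component and side -/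
def pt (x : Vtx T N) : ℕ × Bool := (((ofLex (ofLex x).2).1 : ℕ), (ofLex (ofLex x).2).2)

theorem lvl_le (x : Vtx T N) : x.lvl ≤ T := Nat.lt_succ_iff.mp (ofLex x).1.2

theorem pt_lt (x : Vtx T N) : x.pt.1 < N x.lvl := (ofLex (ofLex x).2).1.2

/-- constructor -/
def mk (t i : ℕ) (σ : Bool) (ht : t ≤ T) (hi : i < N t) : Vtx T N :=
  toLex ⟨⟨t, Nat.lt_succ_iff.mpr ht⟩, toLex (⟨i, hi⟩, σ)⟩

@[simp] theorem lvl_mk (t i : ℕ) (σ : Bool) (ht : t ≤ T) (hi : i < N t) :
    (mk (T := T) (N := N) t i σ ht hi).lvl = t := rfl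
@[simp] theorem pt_mk (t i : ℕ) (σ : Bool) (ht : t ≤ T) (hi : i < N t) :
    (mk (T := T) (N := N) t i σ ht hi).pt = (i, σ) := rfl

theorem ext' {x y : Vtx T N} (h1 : x.lvl = y.lvl) (h2 : x.pt = y.pt) : x = y := by
  obtain ⟨t, p⟩ := x
  obtain ⟨t', p'⟩ := y
  have ht : t = t' := Fin.ext h1
  subst ht
  obtain ⟨i, σ⟩ := p
  obtain ⟨i', σ'⟩ := p'
  have hi : i = i' := Fin.ext (congrArg Prod.fst h2)
  have hσ : σ = σ' := congrArg Prod.snd h2
  subst hi hσ
  rfl

theorem lvl_mono {x y : Vtx T N} (h : x ≤ y) : x.lvl ≤ y.lvl := by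
  rcases Sigma.Lex.le_def.mp h with h | ⟨h, _⟩
  · exact le_of_lt h
  · exact le_of_eq (congrArg Fin.val h)

end Vtx

section Graph

variable {T : ℕ} {N : ℕ → ℕ}

/-- `y` (older or equally old) is joined to `x` -/
def rel (up : ℕ → ℕ × Bool → ℕ × Bool) (x y : Vtx T N) : Prop :=
  y.lvl ≤ x.lvl ∧ pos up y.lvl (x.lvl - y.lvl) y.pt = flipB x.pt

theorem not_rel_self (up : ℕ → ℕ × Bool → ℕ × Bool) (x : Vtx T N) : ¬ rel up x x := by
  rintro ⟨_, h⟩
  rw [Nat.sub_self] at h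
  have h2 : x.pt.2 = !x.pt.2 := congrArg Prod.snd h
  cases hb : x.pt.2 <;> rw [hb] at h2 <;> exact absurd h2 (by decide)

/-- The adversary's graph. -/
def advGraph (T : ℕ) (N : ℕ → ℕ) (up : ℕ → ℕ × Bool → ℕ × Bool) : SimpleGraph (Vtx T N) where
  Adj x y := rel up x y ∨ rel up y x
  symm := ⟨fun _ _ h => h.symm⟩
  loopless := ⟨fun x h => by rcases h with h | h <;> exact not_rel_self up x h⟩

theorem adv_colorable (T : ℕ) (N : ℕ → ℕ) (up : ℕ → ℕ × Bool → ℕ × Bool)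
    (hup : ∀ t p, up t (flipB p) = flipB (up t p)) : (advGraph T N up).Colorable 2 := by
  let c : Vtx T N → Bool := fun x => (pos up x.lvl (T - x.lvl) x.pt).2
  have key : ∀ x y : Vtx T N, rel up x y → c y = !(c x) := by
    intro x y h
    have h1 : T - y.lvl = (x.lvl - y.lvl) + (T - x.lvl) := by
      have := h.1; have := x.lvl_le; omega
    have h2 : y.lvl + (x.lvl - y.lvl) = x.lvl := by have := h.1; omega
    show (pos up y.lvl (T - y.lvl) y.pt).2 = !(pos up x.lvl (T - x.lvl) x.pt).2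
    rw [h1, pos_add, h2, h.2, pos_flip up hup]
    rfl
  have C : (advGraph T N up).Coloring Bool := by
    refine SimpleGraph.Coloring.mk c ?_
    intro x y h
    rcases h with h | h
    · rw [key x y h]; cases c x <;> decide
    · rw [key y x h]; cases c y <;> decide
  have := C.colorable
  simpa using this

theorem adv_congr {up up' : ℕ → ℕ × Bool → ℕ × Bool} {t : ℕ} (h : ∀ s, s < t → up s = up' s)
    (x y : Vtx T N) (hx : x.lvl ≤ t) (hy : y.lvl ≤ t) :
    (advGraph T N up).Adj x y ↔ (advGraph T N up').Adj x y := by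
  have key : ∀ x y : Vtx T N, x.lvl ≤ t → y.lvl ≤ t → (rel up x y ↔ rel up' x y) := by
    intro x y hx hy
    unfold rel
    constructor
    · rintro ⟨h1, h2⟩
      exact ⟨h1, by rw [← pos_congr h _ _ (by omega)]; exact h2⟩
    · rintro ⟨h1, h2⟩
      exact ⟨h1, by rw [pos_congr h _ _ (by omega)]; exact h2⟩
  show (rel up x y ∨ rel up y x) ↔ (rel up' x y ∨ rel up' y x)
  rw [key x y hx hy, key y x hy hx]

end Graph

section Run

variable {T : ℕ} {N : ℕ → ℕ}

/-- The colours on side `p.2` of component `p.1` at level `t`. -/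
noncomputable def colSet (up : ℕ → ℕ × Bool → ℕ × Bool) (χ : Vtx T N → ℕ) (t : ℕ)
    (p : ℕ × Bool) : Finset ℕ :=
  by classical exact
    (Finset.univ.filter (fun x : Vtx T N => x.lvl ≤ t ∧ pos up x.lvl (t - x.lvl) x.pt = p)).image χ

theorem mem_colSet {up : ℕ → ℕ × Bool → ℕ × Bool} {χ : Vtx T N → ℕ} {t : ℕ} {p : ℕ × Bool} {c : ℕ} :
    c ∈ colSet up χ t p ↔
      ∃ x : Vtx T N, x.lvl ≤ t ∧ pos up x.lvl (t - x.lvl) x.pt = p ∧ χ x = c := by
  classical
  unfold colSet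
  simp only [Finset.mem_image, Finset.mem_filter, Finset.mem_univ, true_and, and_assoc]

theorem colSet_zero (up : ℕ → ℕ × Bool → ℕ × Bool) (χ : Vtx T N → ℕ) (i : ℕ) (σ : Bool)
    (hi : i < N 0) : colSet up χ 0 (i, σ) = {χ (Vtx.mk 0 i σ (Nat.zero_le _) hi)} := by
  ext c
  rw [mem_colSet, Finset.mem_singleton]
  constructor
  · rintro ⟨x, h1, h2, h3⟩
    have h0 : x.lvl = 0 := Nat.le_zero.mp h1
    rw [h0, Nat.sub_zero] at h2
    have : x = Vtx.mk 0 i σ (Nat.zero_le _) hi := Vtx.ext' (by rw [h0]; rfl) h2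
    rw [← h3, this]
  · rintro rfl
    exact ⟨_, le_rfl, rfl, rfl⟩

/-- One merging round: the new sets are the unions of the old ones with the colour of the new
vertex. -/
theorem mem_colSet_succ (up : ℕ → ℕ × Bool → ℕ × Bool) (χ : Vtx T N → ℕ) (t : ℕ) (j : ℕ)
    (σ : Bool) (ht : t + 1 ≤ T) (hj : j < N (t + 1)) (c : ℕ) :
    c ∈ colSet up χ (t + 1) (j, σ) ↔
      (∃ p : ℕ × Bool, up t p = (j, σ) ∧ c ∈ colSet up χ t p) ∨
        c = χ (Vtx.mk (t + 1) j σ ht hj) := by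
  rw [mem_colSet]
  constructor
  · rintro ⟨x, h1, h2, h3⟩
    rcases Nat.lt_or_ge x.lvl (t + 1) with h | h
    · left
      have h4 : t + 1 - x.lvl = (t - x.lvl) + 1 := by omega
      have h5 : x.lvl + (t - x.lvl) = t := by omega
      rw [h4] at h2
      simp only [pos] at h2
      rw [h5] at h2
      exact ⟨_, h2, mem_colSet.mpr ⟨x, by omega, rfl, h3⟩⟩
    · right
      have h0 : x.lvl = t + 1 := le_antisymm h1 h
      rw [h0, Nat.sub_self] at h2
      have : x = Vtx.mk (t + 1) j σ ht hj := Vtx.ext' (by rw [h0]; rfl) h2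
      rw [← h3, this]
  · rintro (⟨p, h1, h2⟩ | rfl)
    · obtain ⟨x, h3, h4, h5⟩ := mem_colSet.mp h2
      refine ⟨x, by omega, ?_, h5⟩
      have h6 : t + 1 - x.lvl = (t - x.lvl) + 1 := by omega
      have h7 : x.lvl + (t - x.lvl) = t := by omega
      rw [h6]
      simp only [pos]
      rw [h7, h4, h1]
    · exact ⟨_, le_rfl, by rw [Vtx.lvl_mk, Nat.sub_self]; rfl, rfl⟩

theorem new_not_mem (up : ℕ → ℕ × Bool → ℕ × Bool) (χ : Vtx T N → ℕ)
    (hχ : ∀ x y, (advGraph T N up).Adj x y → χ x ≠ χ y) (t : ℕ) (j : ℕ) (σ : Bool) (ht : t ≤ T)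
    (hj : j < N t) : χ (Vtx.mk t j σ ht hj) ∉ colSet up χ t (j, !σ) := by
  intro h
  obtain ⟨x, h1, h2, h3⟩ := mem_colSet.mp h
  have : (advGraph T N up).Adj (Vtx.mk t j σ ht hj) x := Or.inl ⟨h1, h2⟩
  exact hχ _ _ this h3.symm

end Run

end Pool.Agent.Helper2.OC
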