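import Pool.Agent.Helper2.OC.Stats

/-!
# The mean of the statistics of one colour after a merge
-/

namespace Pool.Agent.Helper2.OC

open Finset

theorem us_sq (c : ℕ) (p : Bool → Finset ℕ) : (1 - us c p) * (1 - us c p) = 1 - us c p := by
  unfold us; split_ifs <;> norm_num

theorem de_sq (c : ℕ) (p : Bool → Finset ℕ) : (1 - de c p) * (1 - de c p) = 1 - de c p := by
  unfold de; split_ifs <;> norm_num

theorem lv_sq (c : ℕ) (p : Bool → Finset ℕ) :
    (us c p - de c p) * (us c p - de c p) = us c p - de c p := by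
  unfold us de
  by_cases h1 : c ∈ p false <;> by_cases h2 : c ∈ p true <;> simp [h1, h2]

/-- fraction of the components in which the colour is used -/
noncomputable def xs {α : Type*} [Fintype α] (c : ℕ) (s : α → Bool → Finset ℕ) : ℝ :=
  (∑ i, us c (s i)) / Fintype.card α

/-- fraction of the components in which the colour is dead -/
noncomputable def ys {α : Type*} [Fintype α] (c : ℕ) (s : α → Bool → Finset ℕ) : ℝ :=
  (∑ i, de c (s i)) / Fintype.card α

section

variable {α : Type*} [Fintype α]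

theorem ys_nonneg (c : ℕ) (s : α → Bool → Finset ℕ) : 0 ≤ ys c s :=
  div_nonneg (Finset.sum_nonneg fun _ _ => de_nonneg _ _) (Nat.cast_nonneg _)

theorem ys_le_xs (c : ℕ) (s : α → Bool → Finset ℕ) : ys c s ≤ xs c s :=
  div_le_div_of_nonneg_right (Finset.sum_le_sum fun _ _ => de_le_us _ _) (Nat.cast_nonneg _)

theorem xs_nonneg (c : ℕ) (s : α → Bool → Finset ℕ) : 0 ≤ xs c s :=
  (ys_nonneg c s).trans (ys_le_xs c s)

theorem xs_le_one (c : ℕ) (s : α → Bool → Finset ℕ) : xs c s ≤ 1 := by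
  unfold xs
  refine div_le_one_of_le₀ ?_ (Nat.cast_nonneg _)
  calc ∑ i, us c (s i) ≤ ∑ _i : α, (1 : ℝ) := Finset.sum_le_sum fun _ _ => us_le_one _ _
    _ = _ := by simp

variable [DecidableEq α]

theorem mean_us (c : ℕ) (s : α → Bool → Finset ℕ) (hM : 2 ≤ Fintype.card α) :
    pairMean (fun i i' y => us c (mrg (s i) (s i') y)) =
      (2 * xs c s - xs c s ^ 2) + xs c s * (1 - xs c s) / ((Fintype.card α : ℝ) - 1) := by
  have hM' : (2 : ℝ) ≤ Fintype.card α := by exact_mod_cast hM
  unfold pairMean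
  rw [card_emb_two _ rfl (by omega)]
  simp only [us_mrg]
  have h1 : ∑ x : Fin 2 ↪ α, (1 - (1 - us c (s (x 0))) * (1 - us c (s (x 1))) +
      (1 - (1 - us c (s (x 0))) * (1 - us c (s (x 1))))) =
      2 * (Fintype.card α * (Fintype.card α - 1)) -
        2 * ∑ x : Fin 2 ↪ α, (1 - us c (s (x 0))) * (1 - us c (s (x 1))) := by
    rw [Finset.mul_sum, ← card_emb_two (α := α) _ rfl (by omega)]
    rw [show (2 : ℝ) * (Fintype.card (Fin 2 ↪ α) : ℝ) = ∑ _x : Fin 2 ↪ α, (2 : ℝ) by
      rw [Finset.sum_const, Finset.card_univ, nsmul_eq_mul]; ring]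
    rw [← Finset.sum_sub_distrib]
    refine Finset.sum_congr rfl fun x _ => ?_
    ring
  rw [h1, sum_emb_two_mul (fun i => 1 - us c (s i)) (fun i => 1 - us c (s i))]
  simp only [us_sq]
  have h2 : ∑ i, (1 - us c (s i)) = Fintype.card α * (1 - xs c s) := by
    unfold xs
    rw [Finset.sum_sub_distrib, Finset.sum_const, Finset.card_univ, nsmul_eq_mul]
    field_simp
  rw [h2]
  have h3 : (Fintype.card α : ℝ) - 1 ≠ 0 := by
    have : (0 : ℝ) < (Fintype.card α : ℝ) - 1 := by linarith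
    exact this.ne'
  have h4 : (Fintype.card α : ℝ) ≠ 0 := by
    have : (0 : ℝ) < (Fintype.card α : ℝ) := by linarith
    exact this.ne'
  field_simp
  ring

theorem mean_de (c : ℕ) (s : α → Bool → Finset ℕ) (hM : 2 ≤ Fintype.card α) :
    pairMean (fun i i' y => de c (mrg (s i) (s i') y)) =
      (2 * ys c s - ys c s ^ 2 + (xs c s - ys c s) ^ 2 / 2) +
        (ys c s * (1 - ys c s) - (xs c s - ys c s) * (1 - (xs c s - ys c s)) / 2) /
          ((Fintype.card α : ℝ) - 1) := by
  have hM' : (2 : ℝ) ≤ Fintype.card α := by exact_mod_cast hM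
  unfold pairMean
  rw [card_emb_two _ rfl (by omega)]
  simp only [de_mrg]
  have h1 : ∑ x : Fin 2 ↪ α, (2 * (1 - (1 - de c (s (x 0))) * (1 - de c (s (x 1)))) +
      (us c (s (x 0)) - de c (s (x 0))) * (us c (s (x 1)) - de c (s (x 1)))) =
      2 * (Fintype.card α * (Fintype.card α - 1)) -
        2 * ∑ x : Fin 2 ↪ α, (1 - de c (s (x 0))) * (1 - de c (s (x 1))) +
        ∑ x : Fin 2 ↪ α, (us c (s (x 0)) - de c (s (x 0))) *
          (us c (s (x 1)) - de c (s (x 1))) := by
    rw [Finset.mul_sum, ← card_emb_two (α := α) _ rfl (by omega)]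
    rw [show (2 : ℝ) * (Fintype.card (Fin 2 ↪ α) : ℝ) = ∑ _x : Fin 2 ↪ α, (2 : ℝ) by
      rw [Finset.sum_const, Finset.card_univ, nsmul_eq_mul]; ring]
    rw [← Finset.sum_sub_distrib, ← Finset.sum_add_distrib]
    refine Finset.sum_congr rfl fun x _ => ?_
    ring
  rw [h1, sum_emb_two_mul (fun i => 1 - de c (s i)) (fun i => 1 - de c (s i)),
    sum_emb_two_mul (fun i => us c (s i) - de c (s i)) (fun i => us c (s i) - de c (s i))]
  simp only [de_sq, lv_sq]
  have h4 : (Fintype.card α : ℝ) ≠ 0 := by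
    have : (0 : ℝ) < (Fintype.card α : ℝ) := by linarith
    exact this.ne'
  have h2 : ∑ i, (1 - de c (s i)) = Fintype.card α * (1 - ys c s) := by
    unfold ys
    rw [Finset.sum_sub_distrib, Finset.sum_const, Finset.card_univ, nsmul_eq_mul]
    field_simp
  have h5 : ∑ i, (us c (s i) - de c (s i)) = Fintype.card α * (xs c s - ys c s) := by
    unfold xs ys
    rw [Finset.sum_sub_distrib]
    field_simp
  rw [h2, h5]
  have h3 : (Fintype.card α : ℝ) - 1 ≠ 0 := by
    have : (0 : ℝ) < (Fintype.card α : ℝ) - 1 := by linarith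
    exact this.ne'
  field_simp
  ring

theorem mean_us_err (c : ℕ) (s : α → Bool → Finset ℕ) (hM : 2 ≤ Fintype.card α) :
    |pairMean (fun i i' y => us c (mrg (s i) (s i') y)) - (2 * xs c s - xs c s ^ 2)| ≤
      xs c s / ((Fintype.card α : ℝ) - 1) := by
  have hM' : (2 : ℝ) ≤ Fintype.card α := by exact_mod_cast hM
  have h0 := xs_nonneg c s
  have h1 := xs_le_one c s
  have h2 : (0:ℝ) < (Fintype.card α : ℝ) - 1 := by linarith
  rw [mean_us c s hM, add_sub_cancel_left, abs_of_nonneg (by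
    apply div_nonneg _ h2.le
    exact mul_nonneg h0 (by linarith))]
  apply div_le_div_of_nonneg_right _ h2.le
  nlinarith

theorem mean_de_err (c : ℕ) (s : α → Bool → Finset ℕ) (hM : 2 ≤ Fintype.card α) :
    |pairMean (fun i i' y => de c (mrg (s i) (s i') y)) -
      (2 * ys c s - ys c s ^ 2 + (xs c s - ys c s) ^ 2 / 2)| ≤
      xs c s / ((Fintype.card α : ℝ) - 1) := by
  have hM' : (2 : ℝ) ≤ Fintype.card α := by exact_mod_cast hM
  have h0 := ys_nonneg c s
  have h01 := ys_le_xs c s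
  have h1 := xs_le_one c s
  have h2 : (0:ℝ) < (Fintype.card α : ℝ) - 1 := by linarith
  rw [mean_de c s hM, add_sub_cancel_left, abs_div, abs_of_pos h2]
  apply div_le_div_of_nonneg_right _ h2.le
  rw [abs_le]
  constructor <;> nlinarith [mul_nonneg h0 (sub_nonneg.mpr h01), mul_nonneg h0 (sub_nonneg.mpr h1)]

end

end Pool.Agent.Helper2.OC
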