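import Mathlib

/-!
# Randomised online colouring of bipartite graphs: the model, and Yao's principle
-/

namespace Pool.Agent.Helper2.OC

open scoped ENNReal

/-- A deterministic online colouring algorithm for bipartite inputs with `n` vertices, revealed in
the order `0, 1, …, n-1`.  `colour G v` is the colour of `v` on the input graph `G`; it depends only
on the subgraph induced on the vertices `≤ v`, and on bipartite inputs the colouring is proper. -/
structure OnlineAlg (n : ℕ) where
  colour : SimpleGraph (Fin n) → Fin n → ℕ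
  online : ∀ (G H : SimpleGraph (Fin n)) (v : Fin n),
    (∀ i j : Fin n, i ≤ v → j ≤ v → (G.Adj i j ↔ H.Adj i j)) → colour G v = colour H v
  proper : ∀ G : SimpleGraph (Fin n), G.Colorable 2 → ∀ i j, G.Adj i j → colour G i ≠ colour G j

/-- The number of distinct colours used by `A` on the input `G`. -/
def OnlineAlg.numColours {n : ℕ} (A : OnlineAlg n) (G : SimpleGraph (Fin n)) : ℕ :=
  (Finset.univ.image (A.colour G)).card

/-- The expected number of colours used by the randomised online algorithm `P` (a probability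
distribution over deterministic online algorithms) on the input `G`. -/
noncomputable def expColours {n : ℕ} (P : PMF (OnlineAlg n)) (G : SimpleGraph (Fin n)) : ℝ≥0∞ :=
  ∑' A, P A * (A.numColours G : ℝ≥0∞)

/-- The worst-case expected cost on bipartite graphs with `n` vertices (and all arrival orders). -/
noncomputable def cost {n : ℕ} (P : PMF (OnlineAlg n)) : ℝ≥0∞ :=
  ⨆ (G : SimpleGraph (Fin n)) (_ : G.Colorable 2), expColours P G

/-- `f n`: the least worst-case expected cost of a randomised online algorithm. -/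
noncomputable def f (n : ℕ) : ℝ≥0∞ := ⨅ P : PMF (OnlineAlg n), cost P

/-- Yao's principle. -/
theorem yao {n : ℕ} {Ω : Type*} [Fintype Ω] [Nonempty Ω] (G : Ω → SimpleGraph (Fin n))
    (hG : ∀ ω, (G ω).Colorable 2) (x : ℝ)
    (h : ∀ A : OnlineAlg n, x * Fintype.card Ω ≤ ∑ ω, (A.numColours (G ω) : ℝ)) :
    ENNReal.ofReal x ≤ f n := by
  classical
  unfold f
  refine le_iInf fun P => ?_
  have hcard : (Fintype.card Ω : ℝ≥0∞) ≠ 0 := by
    simp
  have hcard' : (Fintype.card Ω : ℝ≥0∞) ≠ ⊤ := ENNReal.natCast_ne_top _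
  have h1 : ENNReal.ofReal x * Fintype.card Ω ≤ ∑ ω, expColours P (G ω) := by
    have h2 : ∑ ω, expColours P (G ω) = ∑' A, P A * ∑ ω, (A.numColours (G ω) : ℝ≥0∞) := by
      unfold expColours
      rw [← tsum_fintype (L := .unconditional _), ENNReal.tsum_comm]
      refine tsum_congr fun A => ?_
      rw [tsum_fintype, Finset.mul_sum]
    rw [h2]
    have h3 : ∀ A : OnlineAlg n, ENNReal.ofReal x * Fintype.card Ω ≤
        ∑ ω, (A.numColours (G ω) : ℝ≥0∞) := by
      intro A
      have h4 : (∑ ω, (A.numColours (G ω) : ℝ≥0∞)) =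
          ENNReal.ofReal (∑ ω, (A.numColours (G ω) : ℝ)) := by
        rw [ENNReal.ofReal_sum_of_nonneg (fun _ _ => Nat.cast_nonneg _)]
        simp
      rw [h4]
      by_cases hx : 0 ≤ x
      · rw [← ENNReal.ofReal_natCast, ← ENNReal.ofReal_mul hx]
        exact ENNReal.ofReal_le_ofReal (h A)
      · rw [ENNReal.ofReal_of_nonpos (le_of_lt (not_le.mp hx))]
        simp
    calc ENNReal.ofReal x * Fintype.card Ω
        = (∑' A, P A) * (ENNReal.ofReal x * Fintype.card Ω) := by rw [PMF.tsum_coe, one_mul]
      _ = ∑' A, P A * (ENNReal.ofReal x * Fintype.card Ω) := by rw [ENNReal.tsum_mul_right]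
      _ ≤ _ := ENNReal.tsum_le_tsum fun A => mul_le_mul_right (h3 A) _
  have h5 : ∑ ω, expColours P (G ω) ≤ ∑ _ω : Ω, cost P := by
    refine Finset.sum_le_sum fun ω _ => ?_
    unfold cost
    exact le_iSup₂_of_le (G ω) (hG ω) le_rfl
  rw [Finset.sum_const, Finset.card_univ, nsmul_eq_mul, mul_comm (Fintype.card Ω : ℝ≥0∞)] at h5
  have h6 := h1.trans h5
  exact (ENNReal.mul_le_mul_iff_left hcard hcard').mp h6

end Pool.Agent.Helper2.OC
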