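import Pool.Agent.Helper2.OC.Transfer

/-!
# The two-sample inequality
-/

namespace Pool.Agent.Helper2.OC

open Finset

/-- indicator of a live colour (used on exactly one side) -/
noncomputable def lv (c : ℕ) (p : Bool → Finset ℕ) : ℝ := us c p - de c p

/-- the payoff of a colour in a pair of components -/
noncomputable def pay (c : ℕ) (p q : Bool → Finset ℕ) : ℝ :=
  2 * ((1 - us c p) * lv c q + lv c p * (1 - us c q) + lv c p * lv c q) +
    (lv c p * de c q + de c p * lv c q)

theorem lv_nonneg (c : ℕ) (p : Bool → Finset ℕ) : 0 ≤ lv c p := sub_nonneg.mpr (de_le_us c p)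

theorem us_mono {c : ℕ} {p q : Bool → Finset ℕ} (h : ∀ σ, p σ ⊆ q σ) : us c p ≤ us c q := by
  unfold us
  by_cases h1 : c ∈ p false ∨ c ∈ p true
  · have h2 : c ∈ q false ∨ c ∈ q true := h1.imp (fun x => h _ x) (fun x => h _ x)
    simp [h1, h2]
  · rw [if_neg h1]
    split_ifs <;> norm_num

theorem de_mono {c : ℕ} {p q : Bool → Finset ℕ} (h : ∀ σ, p σ ⊆ q σ) : de c p ≤ de c q := by
  unfold de
  by_cases h1 : c ∈ p false ∧ c ∈ p true
  · have h2 : c ∈ q false ∧ c ∈ q true := h1.imp (fun x => h _ x) (fun x => h _ x)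
    simp [h1, h2]
  · rw [if_neg h1]
    split_ifs <;> norm_num

/-- At least two live colours in a saturated component. -/
theorem two_le_sum_lv {p : Bool → Finset ℕ} (hp : ∀ σ, ∃ c ∈ p σ, c ∉ p (!σ)) {P : Finset ℕ}
    (hP : ∀ σ, p σ ⊆ P) : (2 : ℝ) ≤ ∑ c ∈ P, lv c p := by
  obtain ⟨a, ha, ha'⟩ := hp false
  obtain ⟨b, hb, hb'⟩ := hp true
  have hab : a ≠ b := by
    intro h
    rw [h] at ha
    exact hb' ha
  have h1 : lv a p = 1 := by
    unfold lv us de
    have : a ∉ p true := ha'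
    simp [ha, this]
  have h2 : lv b p = 1 := by
    unfold lv us de
    have : b ∉ p false := hb'
    simp [hb, this]
  calc (2 : ℝ) = ∑ c ∈ ({a, b} : Finset ℕ), lv c p := by
        rw [Finset.sum_pair hab, h1, h2]; norm_num
    _ ≤ ∑ c ∈ P, lv c p := by
        refine Finset.sum_le_sum_of_subset_of_nonneg ?_ fun c _ _ => lv_nonneg c p
        intro c hc
        rw [Finset.mem_insert, Finset.mem_singleton] at hc
        rcases hc with rfl | rfl
        · exact hP _ ha
        · exact hP _ hb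

/-- the pair inequality -/
theorem pair_ineq {p q : Bool → Finset ℕ} (hp : ∀ σ, ∃ c ∈ p σ, c ∉ p (!σ))
    (hq : ∀ σ, ∃ c ∈ q σ, c ∉ q (!σ)) (m : Bool → Bool → Finset ℕ)
    (hm : ∀ y σ, mrg p q y σ ⊆ m y σ) (hsat : ∀ y σ, ∃ c ∈ m y σ, c ∉ m y (!σ))
    {P : Finset ℕ} (hP : ∀ y σ, m y σ ⊆ P) :
    (6 : ℝ) ≤ ∑ c ∈ P, (pay c p q + ((us c (m false) - us c (mrg p q false)) +
      (us c (m true) - us c (mrg p q true)))) := by
  classical
  -- the four counts
  set fu : ℕ → ℝ := fun c => (1 - us c p) * lv c q + lv c p * (1 - us c q) with hfu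
  set fd : ℕ → ℝ := fun c => lv c p * lv c q with hfd
  set fk : ℕ → ℝ := fun c => lv c p * de c q + de c p * lv c q with hfk
  set fi : ℕ → ℝ := fun c => (us c (m false) - us c (mrg p q false)) +
      (us c (m true) - us c (mrg p q true)) with hfi
  have hpP : ∀ σ, p σ ⊆ P := fun σ =>
    (Finset.subset_union_left).trans ((hm false σ).trans (hP false σ))
  have hqP : ∀ σ, q σ ⊆ P := fun σ => by
    have h1 : q σ ⊆ mrg p q false σ := by
      unfold mrg
      rw [Bool.xor_false]
      exact Finset.subset_union_right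
    exact h1.trans ((hm false σ).trans (hP false σ))
  have h1 : (2 : ℝ) ≤ ∑ c ∈ P, lv c p := two_le_sum_lv hp hpP
  have h2 : (2 : ℝ) ≤ ∑ c ∈ P, lv c q := two_le_sum_lv hq hqP
  have h3 : (2 : ℝ) ≤ ∑ c ∈ P, lv c (m false) := two_le_sum_lv (hsat false) (hP false)
  have h4 : (2 : ℝ) ≤ ∑ c ∈ P, lv c (m true) := two_le_sum_lv (hsat true) (hP true)
  have hfi0 : ∀ c, 0 ≤ fi c := fun c => by
    have a1 := us_mono (c := c) (hm false)
    have a2 := us_mono (c := c) (hm true)
    simp only [hfi]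
    linarith
  have hfk0 : ∀ c, 0 ≤ fk c := fun c => by
    have a1 := lv_nonneg c p
    have a2 := lv_nonneg c q
    have a3 := de_nonneg c p
    have a4 := de_nonneg c q
    simp only [hfk]
    positivity
  -- pointwise inequalities
  have e1 : ∀ c, lv c p + lv c q = fu c + 2 * fd c + fk c := fun c => by
    simp only [hfu, hfd, hfk, lv]
    ring
  have e2 : ∀ c, lv c (m false) + lv c (m true) ≤ 2 * fu c + fd c + fi c := fun c => by
    have b1 : lv c (mrg p q false) + lv c (mrg p q true) ≤ 2 * fu c + fd c := by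
      have u1 := us_mrg c p q false
      have u2 := us_mrg c p q true
      have d1 := de_mrg c p q
      have : lv c (mrg p q false) + lv c (mrg p q true) =
          (us c (mrg p q false) + us c (mrg p q true)) -
            (de c (mrg p q false) + de c (mrg p q true)) := by unfold lv; ring
      rw [this, u1, u2, d1]
      simp only [hfu, hfd, lv]
      have a1 := lv_nonneg c p
      have a2 := lv_nonneg c q
      unfold lv at a1 a2
      nlinarith [mul_nonneg a1 a2, de_nonneg c p, de_nonneg c q, us_le_one c p, us_le_one c q]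
    have a1 := de_mono (c := c) (hm false)
    have a2 := de_mono (c := c) (hm true)
    simp only [hfi]
    unfold lv at b1 ⊢
    linarith
  -- integrality
  have hint : ∃ n : ℕ, ∑ c ∈ P, (fu c + fd c) = (n : ℝ) := by
    refine ⟨(P.filter fun c => fu c + fd c = 1).card, ?_⟩
    have h01 : ∀ c, fu c + fd c = if fu c + fd c = 1 then 1 else 0 := by
      intro c
      have : fu c + fd c = 0 ∨ fu c + fd c = 1 := by
        simp only [hfu, hfd, lv, us, de]
        by_cases h1 : c ∈ p false <;> by_cases h2 : c ∈ p true <;> by_cases h3 : c ∈ q false <;>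
          by_cases h4 : c ∈ q true <;> simp [h1, h2, h3, h4]
      rcases this with h | h
      · rw [h]; simp
      · rw [h]; simp
    rw [Finset.sum_congr rfl fun c _ => h01 c, Finset.sum_boole]
  obtain ⟨n, hn⟩ := hint
  have s1 : (4 : ℝ) ≤ ∑ c ∈ P, fu c + 2 * ∑ c ∈ P, fd c + ∑ c ∈ P, fk c := by
    have : ∑ c ∈ P, (lv c p + lv c q) = ∑ c ∈ P, fu c + 2 * ∑ c ∈ P, fd c + ∑ c ∈ P, fk c := by
      rw [Finset.sum_congr rfl fun c _ => e1 c, Finset.sum_add_distrib, Finset.sum_add_distrib,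
        Finset.mul_sum]
    rw [← this, Finset.sum_add_distrib]
    linarith
  have s2 : (4 : ℝ) ≤ 2 * ∑ c ∈ P, fu c + ∑ c ∈ P, fd c + ∑ c ∈ P, fi c := by
    have : ∑ c ∈ P, (lv c (m false) + lv c (m true)) ≤
        2 * ∑ c ∈ P, fu c + ∑ c ∈ P, fd c + ∑ c ∈ P, fi c := by
      refine (Finset.sum_le_sum fun c _ => e2 c).trans (le_of_eq ?_)
      rw [Finset.sum_add_distrib, Finset.sum_add_distrib, Finset.mul_sum]
    rw [Finset.sum_add_distrib] at this
    linarith
  have hk0 : 0 ≤ ∑ c ∈ P, fk c := Finset.sum_nonneg fun c _ => hfk0 c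
  have hi0 : 0 ≤ ∑ c ∈ P, fi c := Finset.sum_nonneg fun c _ => hfi0 c
  rw [Finset.sum_add_distrib] at hn
  have goal_eq : ∑ c ∈ P, (pay c p q + fi c) =
      2 * (∑ c ∈ P, fu c + ∑ c ∈ P, fd c) + ∑ c ∈ P, fk c + ∑ c ∈ P, fi c := by
    rw [← Finset.sum_add_distrib, Finset.mul_sum, ← Finset.sum_add_distrib, ← Finset.sum_add_distrib]
    refine Finset.sum_congr rfl fun c _ => ?_
    simp only [hfu, hfd, hfk, pay]
  change (6 : ℝ) ≤ ∑ c ∈ P, (pay c p q + fi c)
  rw [goal_eq]
  rcases Nat.lt_or_ge n 3 with h | h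
  · have : (n : ℝ) ≤ 2 := by exact_mod_cast Nat.lt_succ_iff.mp h
    linarith
  · have : (3 : ℝ) ≤ n := by exact_mod_cast h
    linarith

end Pool.Agent.Helper2.OC
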