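import Mathlib

/-!
# Functions with a second order Taylor bound on the unit square
-/

namespace Pool.Agent.Helper2.OC

/-- second order Taylor bound on the unit square, with bounded value and gradient -/
def QuadB (G Gx Gy : ℝ → ℝ → ℝ) (L : ℝ) : Prop :=
  ∀ u v u0 v0 : ℝ, 0 ≤ u → u ≤ 1 → 0 ≤ v → v ≤ 1 → 0 ≤ u0 → u0 ≤ 1 → 0 ≤ v0 → v0 ≤ 1 →
    |G u0 v0| ≤ L ∧ |Gx u0 v0| ≤ L ∧ |Gy u0 v0| ≤ L ∧
    |G u v - G u0 v0 - Gx u0 v0 * (u - u0) - Gy u0 v0 * (v - v0)| ≤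
      L * ((u - u0) ^ 2 + (v - v0) ^ 2)

def Quad (G : ℝ → ℝ → ℝ) : Prop := ∃ Gx Gy : ℝ → ℝ → ℝ, ∃ L : ℝ, 0 ≤ L ∧ QuadB G Gx Gy L

theorem Quad.const (r : ℝ) : Quad (fun _ _ => r) := by
  refine ⟨fun _ _ => 0, fun _ _ => 0, |r|, abs_nonneg r, ?_⟩
  intro u v u0 v0 _ _ _ _ _ _ _ _
  refine ⟨le_rfl, by simp, by simp, ?_⟩
  simp only [sub_self, zero_mul, sub_zero, abs_zero]
  positivity

theorem Quad.fst : Quad (fun x _ => x) := by
  refine ⟨fun _ _ => 1, fun _ _ => 0, 1, zero_le_one, ?_⟩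
  intro u v u0 v0 _ _ _ _ h1 h2 _ _
  refine ⟨by rw [abs_of_nonneg h1]; exact h2, by simp, by simp, ?_⟩
  have : u - u0 - 1 * (u - u0) - 0 * (v - v0) = 0 := by ring
  rw [this, abs_zero]
  positivity

theorem Quad.snd : Quad (fun _ y => y) := by
  refine ⟨fun _ _ => 0, fun _ _ => 1, 1, zero_le_one, ?_⟩
  intro u v u0 v0 _ _ _ _ _ _ h1 h2
  refine ⟨by rw [abs_of_nonneg h1]; exact h2, by simp, by simp, ?_⟩
  have : v - v0 - 0 * (u - u0) - 1 * (v - v0) = 0 := by ring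
  rw [this, abs_zero]
  positivity

theorem Quad.add {G H : ℝ → ℝ → ℝ} (hG : Quad G) (hH : Quad H) :
    Quad (fun x y => G x y + H x y) := by
  obtain ⟨Gx, Gy, L, hL, h⟩ := hG
  obtain ⟨Hx, Hy, M, hM, k⟩ := hH
  refine ⟨fun x y => Gx x y + Hx x y, fun x y => Gy x y + Hy x y, L + M, by positivity, ?_⟩
  intro u v u0 v0 a1 a2 a3 a4 a5 a6 a7 a8
  obtain ⟨h1, h2, h3, h4⟩ := h u v u0 v0 a1 a2 a3 a4 a5 a6 a7 a8
  obtain ⟨k1, k2, k3, k4⟩ := k u v u0 v0 a1 a2 a3 a4 a5 a6 a7 a8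
  refine ⟨(abs_add_le _ _).trans (add_le_add h1 k1), (abs_add_le _ _).trans (add_le_add h2 k2),
    (abs_add_le _ _).trans (add_le_add h3 k3), ?_⟩
  have : G u v + H u v - (G u0 v0 + H u0 v0) - (Gx u0 v0 + Hx u0 v0) * (u - u0) -
      (Gy u0 v0 + Hy u0 v0) * (v - v0) =
      (G u v - G u0 v0 - Gx u0 v0 * (u - u0) - Gy u0 v0 * (v - v0)) +
      (H u v - H u0 v0 - Hx u0 v0 * (u - u0) - Hy u0 v0 * (v - v0)) := by ring
  rw [this, add_mul]
  exact (abs_add_le _ _).trans (add_le_add h4 k4)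

theorem Quad.mul {G H : ℝ → ℝ → ℝ} (hG : Quad G) (hH : Quad H) :
    Quad (fun x y => G x y * H x y) := by
  obtain ⟨Gx, Gy, L, hL, h⟩ := hG
  obtain ⟨Hx, Hy, M, hM, k⟩ := hH
  refine ⟨fun x y => Gx x y * H x y + G x y * Hx x y,
    fun x y => Gy x y * H x y + G x y * Hy x y, 10 * (L * M), by positivity, ?_⟩
  intro u v u0 v0 a1 a2 a3 a4 a5 a6 a7 a8
  obtain ⟨h1, h2, h3, h4⟩ := h u v u0 v0 a1 a2 a3 a4 a5 a6 a7 a8
  obtain ⟨k1, k2, k3, k4⟩ := k u v u0 v0 a1 a2 a3 a4 a5 a6 a7 a8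
  have hLM : 0 ≤ L * M := mul_nonneg hL hM
  have bnd : ∀ {a b A B : ℝ}, |a| ≤ A → |b| ≤ B → |a * b| ≤ A * B := by
    intro a b A B ha hb
    rw [abs_mul]
    exact mul_le_mul ha hb (abs_nonneg _) ((abs_nonneg _).trans ha)
  refine ⟨(bnd h1 k1).trans (by linarith), ?_, ?_, ?_⟩
  · refine (abs_add_le _ _).trans ?_
    have := bnd h2 k1
    have := bnd h1 k2
    linarith
  · refine (abs_add_le _ _).trans ?_
    have := bnd h3 k1
    have := bnd h1 k3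
    linarith
  set ρ : ℝ := (u - u0) ^ 2 + (v - v0) ^ 2 with hρ
  have hρ0 : 0 ≤ ρ := by positivity
  have hdu : |u - u0| ≤ 1 := by rw [abs_le]; constructor <;> linarith
  have hdv : |v - v0| ≤ 1 := by rw [abs_le]; constructor <;> linarith
  have hρ2 : ρ ≤ 2 := by
    have e1 : (u - u0) ^ 2 ≤ 1 := by rw [← sq_abs]; nlinarith [abs_nonneg (u - u0)]
    have e2 : (v - v0) ^ 2 ≤ 1 := by rw [← sq_abs]; nlinarith [abs_nonneg (v - v0)]
    linarith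
  set g1 : ℝ := Gx u0 v0 * (u - u0) + Gy u0 v0 * (v - v0) with hg1
  set k1' : ℝ := Hx u0 v0 * (u - u0) + Hy u0 v0 * (v - v0) with hk1'
  set g2 : ℝ := G u v - G u0 v0 - Gx u0 v0 * (u - u0) - Gy u0 v0 * (v - v0) with hg2
  set k2' : ℝ := H u v - H u0 v0 - Hx u0 v0 * (u - u0) - Hy u0 v0 * (v - v0) with hk2'
  have bg1 : |g1| ≤ L * (|u - u0| + |v - v0|) := by
    rw [hg1, mul_add]
    refine (abs_add_le _ _).trans (add_le_add ?_ ?_)
    · exact bnd h2 le_rfl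
    · exact bnd h3 le_rfl
  have bk1 : |k1'| ≤ M * (|u - u0| + |v - v0|) := by
    rw [hk1', mul_add]
    refine (abs_add_le _ _).trans (add_le_add ?_ ?_)
    · exact bnd k2 le_rfl
    · exact bnd k3 le_rfl
  have hs2 : (|u - u0| + |v - v0|) ^ 2 ≤ 2 * ρ := by
    rw [hρ, ← sq_abs (u - u0), ← sq_abs (v - v0)]
    nlinarith [sq_nonneg (|u - u0| - |v - v0|)]
  have hs1 : |u - u0| + |v - v0| ≤ 2 := by linarith
  have hs0 : 0 ≤ |u - u0| + |v - v0| := by positivity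
  have bg1' : |g1| ≤ 2 * L := bg1.trans (by nlinarith)
  have bk1'' : |k1'| ≤ 2 * M := bk1.trans (by nlinarith)
  have bgk : |g1 * k1'| ≤ 2 * (L * M) * ρ := by
    refine (bnd bg1 bk1).trans ?_
    have : L * (|u - u0| + |v - v0|) * (M * (|u - u0| + |v - v0|)) =
        L * M * (|u - u0| + |v - v0|) ^ 2 := by ring
    rw [this]
    nlinarith
  have b1 : |G u0 v0 * k2'| ≤ L * M * ρ := by
    refine (bnd h1 k4).trans (le_of_eq ?_); ring
  have b2 : |H u0 v0 * g2| ≤ L * M * ρ := by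
    refine (bnd k1 h4).trans (le_of_eq ?_); ring
  have b3 : |g1 * k2'| ≤ 2 * (L * M) * ρ := by
    refine (bnd bg1' k4).trans (le_of_eq ?_); ring
  have b4 : |g2 * k1'| ≤ 2 * (L * M) * ρ := by
    refine (bnd h4 bk1'').trans (le_of_eq ?_); ring
  have b5 : |g2 * k2'| ≤ 2 * (L * M) * ρ := by
    refine (bnd h4 k4).trans ?_
    have : L * ρ * (M * ρ) = (L * M) * ρ * ρ := by ring
    rw [this]
    nlinarith [mul_nonneg hLM hρ0]
  have hG' : G u v = G u0 v0 + g1 + g2 := by rw [hg1, hg2]; ring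
  have hH' : H u v = H u0 v0 + k1' + k2' := by rw [hk1', hk2']; ring
  have hfin : G u v * H u v - G u0 v0 * H u0 v0 -
      (Gx u0 v0 * H u0 v0 + G u0 v0 * Hx u0 v0) * (u - u0) -
      (Gy u0 v0 * H u0 v0 + G u0 v0 * Hy u0 v0) * (v - v0) =
      G u0 v0 * k2' + H u0 v0 * g2 + g1 * k1' + g1 * k2' + g2 * k1' + g2 * k2' := by
    rw [hG', hH', hg1, hk1']
    ring
  rw [hfin]
  refine (abs_add_le _ _).trans ?_
  refine (add_le_add (abs_add_le _ _) le_rfl).trans ?_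
  refine (add_le_add (add_le_add (abs_add_le _ _) le_rfl) le_rfl).trans ?_
  refine (add_le_add (add_le_add (add_le_add (abs_add_le _ _) le_rfl) le_rfl) le_rfl).trans ?_
  refine (add_le_add (add_le_add (add_le_add (add_le_add (abs_add_le _ _) le_rfl) le_rfl)
    le_rfl) le_rfl).trans ?_
  linarith

end Pool.Agent.Helper2.OC
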