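import Pool.Agent.Helper2.OC.Graph

/-!
# From an online algorithm to a strategy in the population game
-/

namespace Pool.Agent.Helper2.OC

/-- One round of randomness: a matching of the components (as a bijection with pairs), and a
relative orientation for every pair. -/
abbrev Om (N : ℕ → ℕ) (t : ℕ) : Type :=
  (Fin (N t) ≃ Fin (N (t + 1)) × Bool) × (Fin (N (t + 1)) → Bool)

/-- All the randomness. -/
abbrev Hist (T : ℕ) (N : ℕ → ℕ) : Type := ∀ t : Fin T, Om N t

variable {T : ℕ} {N : ℕ → ℕ}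

/-- The position map of one round. -/
def up (ω : Hist T N) (t : ℕ) (p : ℕ × Bool) : ℕ × Bool :=
  if h : t < T ∧ p.1 < N t then
    (((ω ⟨t, h.1⟩).1 ⟨p.1, h.2⟩).1,
      xor p.2 (((ω ⟨t, h.1⟩).1 ⟨p.1, h.2⟩).2 && (ω ⟨t, h.1⟩).2 ((ω ⟨t, h.1⟩).1 ⟨p.1, h.2⟩).1))
  else p

theorem up_flip (ω : Hist T N) (t : ℕ) (p : ℕ × Bool) : up ω t (flipB p) = flipB (up ω t p) := by
  unfold up flipB
  by_cases h : t < T ∧ p.1 < N t
  · rw [dif_pos h, dif_pos h]
    simp only
    congr 1
    cases p.2 <;> cases ((ω ⟨t, h.1⟩).1 ⟨p.1, h.2⟩).2 <;>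
      cases (ω ⟨t, h.1⟩).2 ((ω ⟨t, h.1⟩).1 ⟨p.1, h.2⟩).1 <;> rfl
  · rw [dif_neg h, dif_neg h]

theorem up_congr {ω ω' : Hist T N} {t : ℕ} (h : ∀ (ht : t < T), ω ⟨t, ht⟩ = ω' ⟨t, ht⟩) :
    up ω t = up ω' t := by
  funext p
  unfold up
  by_cases h1 : t < T ∧ p.1 < N t
  · rw [dif_pos h1, dif_pos h1, h h1.1]
  · rw [dif_neg h1, dif_neg h1]

/-- A population: for every component the two colour sets. -/
abbrev Pop (M : ℕ) : Type := Fin M → Bool → Finset ℕ

/-- The components merged from a population, before the two new vertices. -/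
noncomputable def pre {t : ℕ} (s : Pop (N t)) (o : Om N t) : Pop (N (t + 1)) :=
  fun j σ => s (o.1.symm (j, false)) σ ∪ s (o.1.symm (j, true)) (xor σ (o.2 j))

/-- `s'` arises from the population `s0` by adding one new vertex on each side of every component. -/
def Fixed {M : ℕ} (s0 s' : Pop M) : Prop :=
  ∃ χ : Fin M → Bool → ℕ, (∀ j σ, s' j σ = insert (χ j σ) (s0 j σ)) ∧ ∀ j σ, χ j σ ∉ s' j (!σ)

theorem map_colorable {W : Type*} [LinearOrder W] {n : ℕ} (ι : W ↪o Fin n) (G : SimpleGraph W)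
    (h : G.Colorable 2) : (G.map ι.toEmbedding).Colorable 2 := by
  classical
  obtain ⟨C⟩ := h
  refine ⟨SimpleGraph.Coloring.mk
    (fun v => if h : ∃ x, ι x = v then C h.choose else 0) ?_⟩
  intro v w hvw
  obtain ⟨a, b, hab, rfl, rfl⟩ := (SimpleGraph.map_adj _ _ _ _).mp hvw
  have ha : ∃ x, ι x = ι.toEmbedding a := ⟨a, rfl⟩
  have hb : ∃ x, ι x = ι.toEmbedding b := ⟨b, rfl⟩
  rw [dif_pos ha, dif_pos hb]
  have ha' : ha.choose = a := ι.injective ha.choose_spec
  have hb' : hb.choose = b := ι.injective hb.choose_spec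
  rw [ha', hb']
  exact C.valid hab

/-- The final statement of the reduction. -/
theorem exists_run (T : ℕ) (N : ℕ → ℕ) (hN : ∀ t, N (t + 1) ≤ N t) {n : ℕ} (ι : Vtx T N ↪o Fin n) (A : OnlineAlg n) :
    ∃ S : Hist T N → ∀ t : ℕ, Pop (N t),
      (∀ ω ω' : Hist T N, ∀ t, t ≤ T → (∀ s : Fin T, (s : ℕ) < t → ω s = ω' s) → S ω t = S ω' t) ∧
      (∀ ω, Fixed (fun _ _ => ∅) (S ω 0)) ∧
      (∀ ω, ∀ t : Fin T, Fixed (pre (S ω t) (ω t)) (S ω (t + 1))) ∧
      (∀ ω t i σ, S ω t i σ ⊆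
        Finset.univ.image (A.colour ((advGraph T N (up ω)).map ι.toEmbedding))) := by
  classical
  let G : Hist T N → SimpleGraph (Fin n) := fun ω => (advGraph T N (up ω)).map ι.toEmbedding
  let χ : Hist T N → Vtx T N → ℕ := fun ω x => A.colour (G ω) (ι x)
  have hcol : ∀ ω, (G ω).Colorable 2 := fun ω => map_colorable ι _ (adv_colorable T N _ (up_flip ω))
  have hχ : ∀ ω x y, (advGraph T N (up ω)).Adj x y → χ ω x ≠ χ ω y := by
    intro ω x y h
    exact A.proper _ (hcol ω) _ _ ((SimpleGraph.map_adj _ _ _ _).mpr ⟨x, y, h, rfl, rfl⟩)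
  have hloc : ∀ ω ω' : Hist T N, ∀ t, (∀ s : Fin T, (s : ℕ) < t → ω s = ω' s) →
      ∀ x : Vtx T N, x.lvl ≤ t → χ ω x = χ ω' x := by
    intro ω ω' t h x hx
    refine A.online _ _ _ ?_
    intro i j hi hj
    have hup : ∀ s, s < t → up ω s = up ω' s := fun s hs => up_congr fun hs' => h ⟨s, hs'⟩ hs
    constructor
    · intro hh
      obtain ⟨a, b, hab, rfl, rfl⟩ := (SimpleGraph.map_adj _ _ _ _).mp hh
      have ha : a ≤ x := ι.le_iff_le.mp hi
      have hb : b ≤ x := ι.le_iff_le.mp hj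
      exact (SimpleGraph.map_adj _ _ _ _).mpr ⟨a, b,
        (adv_congr hup a b ((Vtx.lvl_mono ha).trans hx) ((Vtx.lvl_mono hb).trans hx)).mp hab,
        rfl, rfl⟩
    · intro hh
      obtain ⟨a, b, hab, rfl, rfl⟩ := (SimpleGraph.map_adj _ _ _ _).mp hh
      have ha : a ≤ x := ι.le_iff_le.mp hi
      have hb : b ≤ x := ι.le_iff_le.mp hj
      exact (SimpleGraph.map_adj _ _ _ _).mpr ⟨a, b,
        (adv_congr hup a b ((Vtx.lvl_mono ha).trans hx) ((Vtx.lvl_mono hb).trans hx)).mpr hab,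
        rfl, rfl⟩
  refine ⟨fun ω t i σ => colSet (up ω) (χ ω) t (i, σ), ?_, ?_, ?_, ?_⟩
  · intro ω ω' t _ h
    have hup : ∀ s, s < t → up ω s = up ω' s := fun s hs => up_congr fun hs' => h ⟨s, hs'⟩ hs
    funext i σ
    ext c
    rw [mem_colSet, mem_colSet]
    constructor
    · rintro ⟨x, h1, h2, h3⟩
      exact ⟨x, h1, by rw [← pos_congr hup _ _ (by omega)]; exact h2,
        by rw [← hloc ω ω' t h x h1]; exact h3⟩
    · rintro ⟨x, h1, h2, h3⟩
      exact ⟨x, h1, by rw [pos_congr hup _ _ (by omega)]; exact h2,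
        by rw [hloc ω ω' t h x h1]; exact h3⟩
  · intro ω
    refine ⟨fun i σ => χ ω (Vtx.mk 0 i σ (Nat.zero_le _) i.2), ?_, ?_⟩
    · intro j σ
      show colSet (up ω) (χ ω) 0 (j, σ) = _
      rw [colSet_zero _ _ _ _ j.2]
      rfl
    · intro j σ
      exact new_not_mem _ _ (hχ ω) 0 j σ (Nat.zero_le _) j.2
  · intro ω t
    refine ⟨fun i σ => χ ω (Vtx.mk (t + 1) i σ t.2 i.2), ?_, ?_⟩
    · intro j σ
      ext c
      show c ∈ colSet (up ω) (χ ω) (t + 1) (j, σ) ↔ _
      rw [mem_colSet_succ _ _ _ _ _ t.2 j.2, Finset.mem_insert, or_comm]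
      refine or_congr_right ?_
      constructor
      · rintro ⟨p, h1, h2⟩
        unfold up at h1
        split_ifs at h1 with h
        · have h3 : (((ω t).1 ⟨p.1, h.2⟩).1 : ℕ) = j := congrArg Prod.fst h1
          have h4 : xor p.2 (((ω t).1 ⟨p.1, h.2⟩).2 && (ω t).2 ((ω t).1 ⟨p.1, h.2⟩).1) = σ :=
            congrArg Prod.snd h1
          have h5 : ((ω t).1 ⟨p.1, h.2⟩).1 = j := Fin.ext h3
          have h6 : (ω t).1.symm (j, ((ω t).1 ⟨p.1, h.2⟩).2) = ⟨p.1, h.2⟩ := by
            rw [Equiv.symm_apply_eq, ← h5]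
          rw [h5] at h4
          unfold pre
          rw [Finset.mem_union]
          cases hb : ((ω t).1 ⟨p.1, h.2⟩).2
          · left
            rw [hb] at h6 h4
            rw [h6, ← h4]
            simpa using h2
          · right
            rw [hb] at h6 h4
            have h7 : xor σ ((ω t).2 j) = p.2 := by
              rw [← h4]
              cases p.2 <;> cases (ω t).2 j <;> rfl
            rw [h6, h7]
            exact h2
        · exfalso
          apply h
          refine ⟨t.2, ?_⟩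
          rw [h1]
          exact lt_of_lt_of_le j.2 (hN t)
      · intro h
        unfold pre at h
        have key : ∀ b : Bool, up ω t (((ω t).1.symm (j, b) : ℕ),
            xor σ (b && (ω t).2 j)) = ((j : ℕ), σ) := by
          intro b
          unfold up
          rw [dif_pos ⟨t.2, ((ω t).1.symm (j, b)).2⟩]
          simp only [Fin.eta, Equiv.apply_symm_apply]
          congr 1
          cases σ <;> cases b <;> cases (ω t).2 j <;> rfl
        rcases Finset.mem_union.mp h with h | h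
        · exact ⟨_, key false, by simpa using h⟩
        · exact ⟨_, key true, by simpa using h⟩
    · intro j σ
      exact new_not_mem _ _ (hχ ω) (t + 1) j σ t.2 j.2
  · intro ω t i σ c hc
    obtain ⟨x, _, _, h3⟩ := mem_colSet.mp hc
    exact Finset.mem_image.mpr ⟨ι x, Finset.mem_univ _, h3⟩

end Pool.Agent.Helper2.OC
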