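import Pool.Agent.Helper2.OC.Var
import Pool.Agent.Helper2.OC.Game

/-!
# Statistics of one colour in a population, before and after a merge
-/

namespace Pool.Agent.Helper2.OC

open Finset

/-- `1` if the colour is used in the component. -/
noncomputable def us (c : ℕ) (p : Bool → Finset ℕ) : ℝ := if c ∈ p false ∨ c ∈ p true then 1 else 0

/-- `1` if the colour is dead in the component (used on both sides). -/
noncomputable def de (c : ℕ) (p : Bool → Finset ℕ) : ℝ := if c ∈ p false ∧ c ∈ p true then 1 else 0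

/-- merge of two components -/
def mrg (p q : Bool → Finset ℕ) (y : Bool) : Bool → Finset ℕ := fun σ => p σ ∪ q (xor σ y)

theorem us_nonneg (c : ℕ) (p : Bool → Finset ℕ) : 0 ≤ us c p := by
  unfold us; split_ifs <;> norm_num

theorem us_le_one (c : ℕ) (p : Bool → Finset ℕ) : us c p ≤ 1 := by
  unfold us; split_ifs <;> norm_num

theorem de_nonneg (c : ℕ) (p : Bool → Finset ℕ) : 0 ≤ de c p := by
  unfold de; split_ifs <;> norm_num

theorem de_le_us (c : ℕ) (p : Bool → Finset ℕ) : de c p ≤ us c p := by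
  unfold de us
  by_cases h1 : c ∈ p false <;> by_cases h2 : c ∈ p true <;> simp [h1, h2]

theorem us_mrg (c : ℕ) (p q : Bool → Finset ℕ) (y : Bool) :
    us c (mrg p q y) = 1 - (1 - us c p) * (1 - us c q) := by
  unfold us mrg
  by_cases h1 : c ∈ p false <;> by_cases h2 : c ∈ p true <;> by_cases h3 : c ∈ q false <;>
    by_cases h4 : c ∈ q true <;> cases y <;> simp [h1, h2, h3, h4]

theorem de_mrg (c : ℕ) (p q : Bool → Finset ℕ) :
    de c (mrg p q false) + de c (mrg p q true) =
      2 * (1 - (1 - de c p) * (1 - de c q)) + (us c p - de c p) * (us c q - de c q) := by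
  unfold us de mrg
  by_cases h1 : c ∈ p false <;> by_cases h2 : c ∈ p true <;> by_cases h3 : c ∈ q false <;>
    by_cases h4 : c ∈ q true <;> norm_num [h1, h2, h3, h4]

theorem de_le_us_mrg (c : ℕ) (p q : Bool → Finset ℕ) (y : Bool) :
    de c (mrg p q y) ≤ us c (mrg p q y) := de_le_us _ _

section PairSum

variable {α : Type*} [Fintype α] [DecidableEq α]

theorem sum_emb_two (F : α → α → ℝ) :
    ∑ x : Fin 2 ↪ α, F (x 0) (x 1) = ∑ a, ∑ b, F a b - ∑ a, F a a := by
  classical
  let φ : (Fin 2 ↪ α) → α × α := fun x => (x 0, x 1)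
  have hφ : Function.Injective φ := by
    intro x y h
    ext i
    fin_cases i
    · exact congrArg Prod.fst h
    · exact congrArg Prod.snd h
  have himg : (Finset.univ : Finset (Fin 2 ↪ α)).image φ = (Finset.univ : Finset α).offDiag := by
    ext ⟨a, b⟩
    simp only [Finset.mem_image, Finset.mem_univ, true_and, Finset.mem_offDiag]
    constructor
    · rintro ⟨x, hx⟩
      have h1 : x 0 = a := congrArg Prod.fst hx
      have h2 : x 1 = b := congrArg Prod.snd hx
      rw [← h1, ← h2]
      intro h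
      exact absurd (x.injective h) (by decide)
    · intro h
      refine ⟨⟨![a, b], ?_⟩, rfl⟩
      intro i j hij
      fin_cases i <;> fin_cases j <;> simp_all
  have h1 : ∑ x : Fin 2 ↪ α, F (x 0) (x 1) = ∑ p ∈ (Finset.univ : Finset α).offDiag, F p.1 p.2 := by
    rw [← himg, Finset.sum_image (fun a _ b _ h => hφ h)]
  have h2 : ∑ p ∈ (Finset.univ : Finset α) ×ˢ (Finset.univ : Finset α), F p.1 p.2 =
      ∑ p ∈ (Finset.univ : Finset α).diag, F p.1 p.2 +
        ∑ p ∈ (Finset.univ : Finset α).offDiag, F p.1 p.2 := by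
    rw [← Finset.sum_union (Finset.disjoint_diag_offDiag _), Finset.diag_union_offDiag]
  rw [Finset.sum_product, Finset.sum_diag] at h2
  rw [h1]
  linarith

theorem sum_emb_two_mul (f g : α → ℝ) :
    ∑ x : Fin 2 ↪ α, f (x 0) * g (x 1) = (∑ a, f a) * (∑ b, g b) - ∑ a, f a * g a := by
  rw [sum_emb_two (fun a b => f a * g b), Finset.sum_mul_sum]

theorem card_emb_two (M : ℕ) (hM : Fintype.card α = M) (h1 : 1 ≤ M) :
    (Fintype.card (Fin 2 ↪ α) : ℝ) = (M : ℝ) * (M - 1) := by
  rw [Fintype.card_embedding_eq, Fintype.card_fin, hM]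
  have h2 : M.descFactorial 2 = M * (M - 1) := by
    simp [Nat.descFactorial_succ, mul_comm]
  rw [h2, Nat.cast_mul, Nat.cast_sub h1]
  push_cast
  ring

end PairSum

end Pool.Agent.Helper2.OC
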