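import Pool.Agent.Helper2.OC.PairIneq

/-!
# One round of the population game: the additive potential
-/

namespace Pool.Agent.Helper2.OC

open Finset

theorem Fixed.subset {M : ℕ} {s0 s' : Pop M} (h : Fixed s0 s') (j : Fin M) (σ : Bool) :
    s0 j σ ⊆ s' j σ := by
  obtain ⟨χ, h1, _⟩ := h
  rw [h1]
  exact Finset.subset_insert _ _

theorem Fixed.de_eq {M : ℕ} {s0 s' : Pop M} (h : Fixed s0 s') (j : Fin M) (c : ℕ) :
    de c (s' j) = de c (s0 j) := by
  obtain ⟨χ, h1, h2⟩ := h
  have hiff : (c ∈ s' j false ∧ c ∈ s' j true) ↔ (c ∈ s0 j false ∧ c ∈ s0 j true) := by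
    constructor
    · rintro ⟨ha, hb⟩
      constructor
      · have := ha
        rw [h1, Finset.mem_insert] at this
        rcases this with h | h
        · exact absurd (h ▸ hb) (h2 j false)
        · exact h
      · have := hb
        rw [h1, Finset.mem_insert] at this
        rcases this with h | h
        · exact absurd (h ▸ ha) (h2 j true)
        · exact h
    · rintro ⟨ha, hb⟩
      constructor
      · rw [h1]; exact Finset.mem_insert_of_mem ha
      · rw [h1]; exact Finset.mem_insert_of_mem hb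
  unfold de
  rw [if_congr hiff rfl rfl]

section

variable {α β : Type*} [Fintype α] [Fintype β] [DecidableEq α] [DecidableEq β]

/-- flip the orientation of one pair -/
def flipAt (j : β) (o : (α ≃ β × Bool) × (β → Bool)) : (α ≃ β × Bool) × (β → Bool) :=
  (o.1, Function.update o.2 j (!o.2 j))

theorem flipAt_flipAt (j : β) (o : (α ≃ β × Bool) × (β → Bool)) : flipAt j (flipAt j o) = o := by
  unfold flipAt
  ext1
  · rfl
  · funext i
    by_cases h : i = j
    · subst h; simp
    · simp [Function.update_of_ne h]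

theorem sum_flipAt (j : β) (f : (α ≃ β × Bool) × (β → Bool) → ℝ) :
    ∑ o, f (flipAt j o) = ∑ o, f o :=
  Fintype.sum_equiv ⟨flipAt j, flipAt j, flipAt_flipAt j, flipAt_flipAt j⟩ _ _ fun _ => rfl

theorem mst_flipAt (s : α → Bool → Finset ℕ) (j : β) (o : (α ≃ β × Bool) × (β → Bool)) :
    mst s (flipAt j o) j = mrg (s (o.1.symm (j, false))) (s (o.1.symm (j, true))) (!o.2 j) := by
  unfold mst flipAt
  simp

/-- the mean payoff of a colour -/
theorem pairMean_pay (c : ℕ) (s : α → Bool → Finset ℕ) (hcard : Fintype.card α = 2 * Fintype.card β)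
    (h3 : 3 ≤ Fintype.card β) :
    pairMean (fun i i' (_ : Bool) => pay c (s i) (s i')) ≤
      2 * ((xs c s - ys c s) * (2 - xs c s)) + 4 * xs c s / Fintype.card β := by
  set b : ℝ := (Fintype.card β : ℝ) with hb
  have hb3 : (3 : ℝ) ≤ b := by rw [hb]; exact_mod_cast h3
  set M : ℝ := (Fintype.card α : ℝ) with hM
  have hMb : M = 2 * b := by rw [hM, hcard, hb]; push_cast; ring
  have hM0 : 0 < M := by rw [hMb]; linarith
  have hM1 : 0 < M - 1 := by rw [hMb]; linarith
  set x := xs c s with hx
  set y := ys c s with hy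
  have hy0 : 0 ≤ y := ys_nonneg c s
  have hyx : y ≤ x := ys_le_xs c s
  have hx1 : x ≤ 1 := xs_le_one c s
  have hsumu : ∑ i, (1 - us c (s i)) = M * (1 - x) := by
    rw [hx]
    unfold xs
    rw [Finset.sum_sub_distrib, Finset.sum_const, Finset.card_univ, nsmul_eq_mul, ← hM]
    field_simp
  have hsuml : ∑ i, lv c (s i) = M * (x - y) := by
    rw [hx, hy]
    unfold lv xs ys
    rw [Finset.sum_sub_distrib, ← hM]
    field_simp
  have hsumd : ∑ i, de c (s i) = M * y := by
    rw [hy]
    unfold ys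
    rw [← hM]
    field_simp
  have key : ∑ z : Fin 2 ↪ α, pay c (s (z 0)) (s (z 1)) ≤
      2 * (M * (1 - x) * (M * (x - y)) + M * (x - y) * (M * (1 - x)) +
        M * (x - y) * (M * (x - y))) + (M * (x - y) * (M * y) + M * y * (M * (x - y))) := by
    have e : ∑ z : Fin 2 ↪ α, pay c (s (z 0)) (s (z 1)) =
        2 * (∑ z : Fin 2 ↪ α, (1 - us c (s (z 0))) * lv c (s (z 1)) +
          ∑ z : Fin 2 ↪ α, lv c (s (z 0)) * (1 - us c (s (z 1))) +
          ∑ z : Fin 2 ↪ α, lv c (s (z 0)) * lv c (s (z 1))) +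
        (∑ z : Fin 2 ↪ α, lv c (s (z 0)) * de c (s (z 1)) +
          ∑ z : Fin 2 ↪ α, de c (s (z 0)) * lv c (s (z 1))) := by
      unfold pay
      rw [Finset.sum_add_distrib, Finset.sum_add_distrib, ← Finset.mul_sum,
        Finset.sum_add_distrib, Finset.sum_add_distrib]
    rw [e, sum_emb_two_mul (fun i => 1 - us c (s i)) (fun i => lv c (s i)),
      sum_emb_two_mul (fun i => lv c (s i)) (fun i => 1 - us c (s i)),
      sum_emb_two_mul (fun i => lv c (s i)) (fun i => lv c (s i)),
      sum_emb_two_mul (fun i => lv c (s i)) (fun i => de c (s i)),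
      sum_emb_two_mul (fun i => de c (s i)) (fun i => lv c (s i)), hsumu, hsuml, hsumd]
    have n1 : 0 ≤ ∑ i, (1 - us c (s i)) * lv c (s i) :=
      Finset.sum_nonneg fun i _ => mul_nonneg (sub_nonneg.mpr (us_le_one _ _)) (lv_nonneg _ _)
    have n2 : 0 ≤ ∑ i, lv c (s i) * (1 - us c (s i)) :=
      Finset.sum_nonneg fun i _ => mul_nonneg (lv_nonneg _ _) (sub_nonneg.mpr (us_le_one _ _))
    have n3 : 0 ≤ ∑ i, lv c (s i) * lv c (s i) :=
      Finset.sum_nonneg fun i _ => mul_nonneg (lv_nonneg _ _) (lv_nonneg _ _)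
    have n4 : 0 ≤ ∑ i, lv c (s i) * de c (s i) :=
      Finset.sum_nonneg fun i _ => mul_nonneg (lv_nonneg _ _) (de_nonneg _ _)
    have n5 : 0 ≤ ∑ i, de c (s i) * lv c (s i) :=
      Finset.sum_nonneg fun i _ => mul_nonneg (de_nonneg _ _) (lv_nonneg _ _)
    linarith
  unfold pairMean
  rw [card_emb_two _ rfl (by omega), ← hM]
  have e2 : ∑ z : Fin 2 ↪ α, (pay c (s (z 0)) (s (z 1)) + pay c (s (z 0)) (s (z 1))) =
      2 * ∑ z : Fin 2 ↪ α, pay c (s (z 0)) (s (z 1)) := by
    rw [Finset.mul_sum]
    exact Finset.sum_congr rfl fun z _ => by ring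
  rw [e2, div_le_iff₀ (by positivity)]
  have e3 : 2 * (M * (1 - x) * (M * (x - y)) + M * (x - y) * (M * (1 - x)) +
        M * (x - y) * (M * (x - y))) + (M * (x - y) * (M * y) + M * y * (M * (x - y))) =
      M ^ 2 * (2 * ((x - y) * (2 - x))) := by ring
  rw [e3] at key
  refine (mul_le_mul_of_nonneg_left key (by norm_num : (0:ℝ) ≤ 2)).trans ?_
  have e4 : (2 * ((x - y) * (2 - x)) + 4 * x / b) * (2 * (M * (M - 1))) =
      2 * (M ^ 2 * (2 * ((x - y) * (2 - x)))) +
      2 * M * (4 * x * ((M - 1) / b) - 2 * ((x - y) * (2 - x))) := by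
    field_simp
    ring
  rw [e4]
  have e5 : 1 ≤ (M - 1) / b := by
    rw [le_div_iff₀ (by linarith), hMb]
    linarith
  have e6 : (x - y) * (2 - x) ≤ 2 * x := by nlinarith
  have e7 : 4 * x ≤ 4 * x * ((M - 1) / b) := by nlinarith
  have : 0 ≤ 2 * M * (4 * x * ((M - 1) / b) - 2 * ((x - y) * (2 - x))) := by
    apply mul_nonneg (by positivity)
    linarith
  linarith

/-- Lower bound for the number of introduced colours. -/
theorem intro_bound (hcard : Fintype.card α = 2 * Fintype.card β) (h3 : 3 ≤ Fintype.card β)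
    (s : α → Bool → Finset ℕ) (hs : ∀ i σ, ∃ c ∈ s i σ, c ∉ s i (!σ))
    (F : (α ≃ β × Bool) × (β → Bool) → β → Bool → Finset ℕ)
    (hF : ∀ o j σ, mst s o j σ ⊆ F o j σ) (hsat : ∀ o j σ, ∃ c ∈ F o j σ, c ∉ F o j (!σ))
    {P : Finset ℕ} (hP : ∀ o j σ, F o j σ ⊆ P) :
    (Fintype.card ((α ≃ β × Bool) × (β → Bool)) : ℝ) *
      (3 - ∑ c ∈ P, ((xs c s - ys c s) * (2 - xs c s) + 2 * xs c s / Fintype.card β)) ≤
      ∑ o : (α ≃ β × Bool) × (β → Bool), ∑ c ∈ P, (xs c (F o) - xs c (mst s o)) := by
  have hne : Nonempty (Fin 2 ↪ α) := by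
    refine ⟨(Function.Embedding.nonempty_of_card_le ?_).some⟩
    rw [Fintype.card_fin, hcard]
    omega
  set W : ℝ := (Fintype.card ((α ≃ β × Bool) × (β → Bool)) : ℝ) with hW
  have hW0 : 0 ≤ W := Nat.cast_nonneg _
  set b : ℝ := (Fintype.card β : ℝ) with hb
  have hb3 : (3 : ℝ) ≤ b := by rw [hb]; exact_mod_cast h3
  have hb0 : 0 < b := by linarith
  set I : ((α ≃ β × Bool) × (β → Bool)) → β → ℝ :=
    fun o j => ∑ c ∈ P, (us c (F o j) - us c (mst s o j)) with hI
  -- the inequality for one pair
  have h1 : ∀ (j : β) (o : (α ≃ β × Bool) × (β → Bool)),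
      (6 : ℝ) ≤ ∑ c ∈ P, pay c (s (o.1.symm (j, false))) (s (o.1.symm (j, true))) +
        (I o j + I (flipAt j o) j) := by
    intro j o
    have hm0 : mst s o j = mrg (s (o.1.symm (j, false))) (s (o.1.symm (j, true))) (o.2 j) := rfl
    have hm1 := mst_flipAt s j o
    cases hy : o.2 j with
    | false =>
      rw [hy] at hm0 hm1
      have := pair_ineq (hs (o.1.symm (j, false))) (hs (o.1.symm (j, true)))
        (fun y => if y = false then F o j else F (flipAt j o) j) (P := P) ?_ ?_ ?_
      · refine this.trans (le_of_eq ?_)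
        simp only [hI, hm0, hm1]
        rw [← Finset.sum_add_distrib, ← Finset.sum_add_distrib]
        rfl
      · intro y σ
        cases y
        · have := hF o j σ
          rw [hm0] at this
          exact this
        · have := hF (flipAt j o) j σ
          rw [hm1] at this
          exact this
      · intro y σ
        cases y
        · exact hsat o j σ
        · exact hsat (flipAt j o) j σ
      · intro y σ
        cases y
        · exact hP o j σ
        · exact hP (flipAt j o) j σ
    | true =>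
      rw [hy] at hm0 hm1
      have := pair_ineq (hs (o.1.symm (j, false))) (hs (o.1.symm (j, true)))
        (fun y => if y = true then F o j else F (flipAt j o) j) (P := P) ?_ ?_ ?_
      · refine this.trans (le_of_eq ?_)
        simp only [hI, hm0, hm1]
        rw [← Finset.sum_add_distrib, ← Finset.sum_add_distrib]
        refine Finset.sum_congr rfl fun c _ => ?_
        simp only [Bool.not_true, reduceIte, Bool.false_eq_true]
        ring
      · intro y σ
        cases y
        · have := hF (flipAt j o) j σ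
          rw [hm1] at this
          exact this
        · have := hF o j σ
          rw [hm0] at this
          exact this
      · intro y σ
        cases y
        · exact hsat (flipAt j o) j σ
        · exact hsat o j σ
      · intro y σ
        cases y
        · exact hP (flipAt j o) j σ
        · exact hP o j σ
  -- sum over the orientations and matchings
  have h2 : ∀ j : β, W * 6 ≤
      W * ∑ c ∈ P, pairMean (fun i i' (_ : Bool) => pay c (s i) (s i')) + 2 * ∑ o, I o j := by
    intro j
    have e1 : ∑ _o : (α ≃ β × Bool) × (β → Bool), (6 : ℝ) ≤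
        ∑ o : (α ≃ β × Bool) × (β → Bool),
          (∑ c ∈ P, pay c (s (o.1.symm (j, false))) (s (o.1.symm (j, true))) +
            (I o j + I (flipAt j o) j)) := Finset.sum_le_sum fun o _ => h1 j o
    rw [Finset.sum_const, Finset.card_univ, nsmul_eq_mul, Finset.sum_add_distrib,
      Finset.sum_add_distrib, sum_flipAt j (fun o => I o j), Finset.sum_comm] at e1
    have e2 : ∀ c ∈ P, ∑ o : (α ≃ β × Bool) × (β → Bool),
        pay c (s (o.1.symm (j, false))) (s (o.1.symm (j, true))) =
        W * pairMean (fun i i' (_ : Bool) => pay c (s i) (s i')) := fun c _ =>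
      sum_pairStat hne (fun i i' (_ : Bool) => pay c (s i) (s i')) j
    rw [Finset.sum_congr rfl e2, ← Finset.mul_sum] at e1
    linarith
  have h4 : ∑ o : (α ≃ β × Bool) × (β → Bool), ∑ c ∈ P, (xs c (F o) - xs c (mst s o)) =
      (∑ j, ∑ o, I o j) / b := by
    rw [Finset.sum_comm (s := (Finset.univ : Finset β)), Finset.sum_div]
    refine Finset.sum_congr rfl fun o _ => ?_
    simp only [hI]
    rw [Finset.sum_comm, Finset.sum_div]
    refine Finset.sum_congr rfl fun c _ => ?_
    unfold xs
    rw [← sub_div, ← Finset.sum_sub_distrib]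
  rw [h4, le_div_iff₀ hb0]
  have h5 : b * (W * 6) ≤ b * (W * ∑ c ∈ P, pairMean (fun i i' (_ : Bool) => pay c (s i) (s i'))) +
      2 * ∑ j, ∑ o, I o j := by
    have := Finset.sum_le_sum fun (j : β) (_ : j ∈ Finset.univ) => h2 j
    rw [Finset.sum_const, Finset.card_univ, nsmul_eq_mul, Finset.sum_add_distrib, Finset.sum_const,
      Finset.card_univ, nsmul_eq_mul, ← Finset.mul_sum] at this
    exact this
  have h6 : ∑ c ∈ P, pairMean (fun i i' (_ : Bool) => pay c (s i) (s i')) ≤
      ∑ c ∈ P, (2 * ((xs c s - ys c s) * (2 - xs c s)) + 4 * xs c s / b) :=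
    Finset.sum_le_sum fun c _ => pairMean_pay c s hcard h3
  have h7 : ∑ c ∈ P, (2 * ((xs c s - ys c s) * (2 - xs c s)) + 4 * xs c s / b) =
      2 * ∑ c ∈ P, ((xs c s - ys c s) * (2 - xs c s) + 2 * xs c s / b) := by
    rw [Finset.mul_sum]
    exact Finset.sum_congr rfl fun c _ => by ring
  rw [h7] at h6
  have h8 := mul_le_mul_of_nonneg_left (mul_le_mul_of_nonneg_left h6 hW0) hb0.le
  nlinarith

end

end Pool.Agent.Helper2.OC
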