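import Pool.Agent.Helper2.OC.Mean
import Pool.Agent.Helper2.OC.Quad

/-!
# The average of a smooth functional of one colour after a random matching
-/

namespace Pool.Agent.Helper2.OC

open Finset

section

variable {α β : Type*} [Fintype α] [Fintype β] [DecidableEq α] [DecidableEq β]

/-- the merged population (before the new vertices) -/
def mst (s : α → Bool → Finset ℕ) (o : (α ≃ β × Bool) × (β → Bool)) : β → Bool → Finset ℕ :=
  fun j => mrg (s (o.1.symm (j, false))) (s (o.1.symm (j, true))) (o.2 j)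

theorem xs_mst (c : ℕ) (s : α → Bool → Finset ℕ) (o : (α ≃ β × Bool) × (β → Bool)) :
    xs c (mst s o) = totStat (fun i i' y => us c (mrg (s i) (s i') y)) o / Fintype.card β := rfl

theorem ys_mst (c : ℕ) (s : α → Bool → Finset ℕ) (o : (α ≃ β × Bool) × (β → Bool)) :
    ys c (mst s o) = totStat (fun i i' y => de c (mrg (s i) (s i') y)) o / Fintype.card β := rfl

/-- Mean square deviation of a normalised pair statistic. -/
theorem avg_sq (hcard : Fintype.card α = 2 * Fintype.card β) (h3 : 3 ≤ Fintype.card β)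
    (d : α → α → Bool → ℝ) (hd0 : ∀ a b y, 0 ≤ d a b y) (hd1 : ∀ a b y, d a b y ≤ 1)
    (x z : ℝ) (hx0 : 0 ≤ x) (hx1 : x ≤ 1) (hmean : |pairMean d - z| ≤ x / Fintype.card β)
    (hm : pairMean d ≤ 3 * x) :
    ∑ o : (α ≃ β × Bool) × (β → Bool), (totStat d o / Fintype.card β - z) ^ 2 ≤
      (Fintype.card ((α ≃ β × Bool) × (β → Bool)) : ℝ) * (20 * x / Fintype.card β) := by
  set W : ℝ := (Fintype.card ((α ≃ β × Bool) × (β → Bool)) : ℝ) with hW
  have hW0 : 0 ≤ W := Nat.cast_nonneg _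
  set b : ℝ := (Fintype.card β : ℝ) with hb
  have hb3 : (3 : ℝ) ≤ b := by rw [hb]; exact_mod_cast h3
  have hb0 : 0 < b := by linarith
  set m := pairMean d with hmd
  have hvar := var_totStat hcard h3 d hd0 hd1
  rw [← hW, ← hb, ← hmd] at hvar
  have h1 : ∀ o : (α ≃ β × Bool) × (β → Bool), (totStat d o / b - z) ^ 2 ≤
      2 / b ^ 2 * (totStat d o - b * m) ^ 2 + 2 * (m - z) ^ 2 := by
    intro o
    have e : totStat d o / b - z = (totStat d o - b * m) / b + (m - z) := by
      field_simp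
      ring
    rw [e]
    have e2 : 2 / b ^ 2 * (totStat d o - b * m) ^ 2 = 2 * ((totStat d o - b * m) / b) ^ 2 := by
      rw [div_pow]; ring
    rw [e2]
    nlinarith [sq_nonneg ((totStat d o - b * m) / b - (m - z))]
  have h2 : (m - z) ^ 2 ≤ x / b := by
    have e1 : (m - z) ^ 2 ≤ (x / b) ^ 2 := by
      rw [← sq_abs]
      exact pow_le_pow_left₀ (abs_nonneg _) hmean 2
    refine e1.trans ?_
    rw [div_pow, div_le_div_iff₀ (by positivity) hb0]
    have : x ^ 2 ≤ x := by nlinarith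
    have : b ≤ b ^ 2 := by nlinarith
    nlinarith [mul_nonneg hx0 hb0.le]
  calc ∑ o : (α ≃ β × Bool) × (β → Bool), (totStat d o / b - z) ^ 2
      ≤ ∑ o : (α ≃ β × Bool) × (β → Bool),
        (2 / b ^ 2 * (totStat d o - b * m) ^ 2 + 2 * (m - z) ^ 2) := Finset.sum_le_sum fun o _ => h1 o
    _ = 2 / b ^ 2 * ∑ o : (α ≃ β × Bool) × (β → Bool), (totStat d o - b * m) ^ 2 +
        W * (2 * (m - z) ^ 2) := by
        rw [Finset.sum_add_distrib, ← Finset.mul_sum, Finset.sum_const, Finset.card_univ,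
          nsmul_eq_mul]
    _ ≤ 2 / b ^ 2 * (W * (3 * b * m)) + W * (2 * (x / b)) := by
        refine add_le_add (mul_le_mul_of_nonneg_left hvar (by positivity)) ?_
        exact mul_le_mul_of_nonneg_left (by linarith) hW0
    _ = W * (6 * m / b + 2 * (x / b)) := by
        field_simp
        ring
    _ ≤ W * (20 * x / b) := by
        refine mul_le_mul_of_nonneg_left ?_ hW0
        have e : 20 * x / b = 6 * (3 * x) / b + 2 * (x / b) := by
          field_simp
          ring
        rw [e]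
        have : 6 * m / b ≤ 6 * (3 * x) / b := by
          apply div_le_div_of_nonneg_right _ hb0.le
          linarith
        linarith

/-- The average of `G (x_c, y_c)` over the random matching. -/
theorem avg_quad (hcard : Fintype.card α = 2 * Fintype.card β) (h3 : 3 ≤ Fintype.card β)
    {G Gx Gy : ℝ → ℝ → ℝ} {L : ℝ} (hL : 0 ≤ L) (hG : QuadB G Gx Gy L)
    (c : ℕ) (s : α → Bool → Finset ℕ) :
    (Fintype.card ((α ≃ β × Bool) × (β → Bool)) : ℝ) *
      (G (2 * xs c s - xs c s ^ 2) (2 * ys c s - ys c s ^ 2 + (xs c s - ys c s) ^ 2 / 2) -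
        42 * L * xs c s / Fintype.card β) ≤
      ∑ o : (α ≃ β × Bool) × (β → Bool), G (xs c (mst s o)) (ys c (mst s o)) := by
  set W : ℝ := (Fintype.card ((α ≃ β × Bool) × (β → Bool)) : ℝ) with hW
  have hW0 : 0 ≤ W := Nat.cast_nonneg _
  set b : ℝ := (Fintype.card β : ℝ) with hb
  have hb3 : (3 : ℝ) ≤ b := by rw [hb]; exact_mod_cast h3
  have hb0 : 0 < b := by linarith
  set x := xs c s with hx
  set y := ys c s with hy
  have hy0 : 0 ≤ y := ys_nonneg c s
  have hyx : y ≤ x := ys_le_xs c s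
  have hx1 : x ≤ 1 := xs_le_one c s
  have hx0 : 0 ≤ x := hy0.trans hyx
  set x1 : ℝ := 2 * x - x ^ 2 with hx1'
  set y1 : ℝ := 2 * y - y ^ 2 + (x - y) ^ 2 / 2 with hy1'
  have hx10 : 0 ≤ x1 := by rw [hx1']; nlinarith
  have hx11 : x1 ≤ 1 := by rw [hx1']; nlinarith [sq_nonneg (1 - x)]
  have hy10 : 0 ≤ y1 := by rw [hy1']; nlinarith [sq_nonneg (x - y)]
  have hy11 : y1 ≤ 1 := by
    rw [hy1']
    nlinarith [mul_nonneg hy0 (sub_nonneg.mpr hyx), mul_nonneg (sub_nonneg.mpr hyx) (sub_nonneg.mpr hx1), sq_nonneg (1 - y), sq_nonneg (1 - x)]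
  have hne : Nonempty (Fin 2 ↪ α) := by
    refine ⟨(Function.Embedding.nonempty_of_card_le ?_).some⟩
    rw [Fintype.card_fin, hcard]
    omega
  have hM : 2 ≤ Fintype.card α := by omega
  have hMb : (Fintype.card α : ℝ) - 1 = 2 * b - 1 := by rw [hcard]; push_cast; ring
  have hMb' : b ≤ (Fintype.card α : ℝ) - 1 := by rw [hMb]; linarith
  set dU : α → α → Bool → ℝ := fun i i' y => us c (mrg (s i) (s i') y) with hdU
  set dD : α → α → Bool → ℝ := fun i i' y => de c (mrg (s i) (s i') y) with hdD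
  have mU : |pairMean dU - x1| ≤ x / b :=
    (mean_us_err c s hM).trans (div_le_div_of_nonneg_left hx0 hb0 hMb')
  have mD : |pairMean dD - y1| ≤ x / b :=
    (mean_de_err c s hM).trans (div_le_div_of_nonneg_left hx0 hb0 hMb')
  have hxb : x / b ≤ x := div_le_self hx0 (by linarith)
  have mU3 : pairMean dU ≤ 3 * x := by
    have := (abs_le.mp mU).2
    have e : x1 ≤ 2 * x := by rw [hx1']; nlinarith
    linarith
  have mD3 : pairMean dD ≤ 3 * x := by
    have := (abs_le.mp mD).2
    have e : y1 ≤ 2 * x := by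
      rw [hy1']
      nlinarith [mul_nonneg hy0 (sub_nonneg.mpr hyx), mul_nonneg (sub_nonneg.mpr hyx) (sub_nonneg.mpr hx1)]
    linarith
  have sqU := avg_sq hcard h3 dU (fun _ _ _ => us_nonneg _ _) (fun _ _ _ => us_le_one _ _) x x1
    hx0 hx1 mU mU3
  have sqD := avg_sq hcard h3 dD (fun _ _ _ => de_nonneg _ _)
    (fun _ _ _ => (de_le_us _ _).trans (us_le_one _ _)) x y1 hx0 hx1 mD mD3
  rw [← hW, ← hb] at sqU sqD
  obtain ⟨_, hgx, hgy, _⟩ := hG x1 y1 x1 y1 hx10 hx11 hy10 hy11 hx10 hx11 hy10 hy11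
  have hpt : ∀ o : (α ≃ β × Bool) × (β → Bool),
      G x1 y1 + Gx x1 y1 * (totStat dU o / b - x1) + Gy x1 y1 * (totStat dD o / b - y1) -
        L * ((totStat dU o / b - x1) ^ 2 + (totStat dD o / b - y1) ^ 2) ≤
      G (xs c (mst s o)) (ys c (mst s o)) := by
    intro o
    have h := (hG (xs c (mst s o)) (ys c (mst s o)) x1 y1 (xs_nonneg _ _) (xs_le_one _ _)
      (ys_nonneg _ _) ((ys_le_xs _ _).trans (xs_le_one _ _)) hx10 hx11 hy10 hy11).2.2.2
    rw [xs_mst, ys_mst] at h ⊢
    have := (abs_le.mp h).1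
    linarith
  have sumU : ∑ o : (α ≃ β × Bool) × (β → Bool), (totStat dU o / b - x1) =
      W * (pairMean dU - x1) := by
    rw [Finset.sum_sub_distrib, ← Finset.sum_div, sum_totStat hne, Finset.sum_const,
      Finset.card_univ, nsmul_eq_mul, ← hW, ← hb]
    field_simp
  have sumD : ∑ o : (α ≃ β × Bool) × (β → Bool), (totStat dD o / b - y1) =
      W * (pairMean dD - y1) := by
    rw [Finset.sum_sub_distrib, ← Finset.sum_div, sum_totStat hne, Finset.sum_const,
      Finset.card_univ, nsmul_eq_mul, ← hW, ← hb]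
    field_simp
  have hsum : ∑ o : (α ≃ β × Bool) × (β → Bool),
      (G x1 y1 + Gx x1 y1 * (totStat dU o / b - x1) + Gy x1 y1 * (totStat dD o / b - y1) -
        L * ((totStat dU o / b - x1) ^ 2 + (totStat dD o / b - y1) ^ 2)) =
      W * G x1 y1 + Gx x1 y1 * (W * (pairMean dU - x1)) + Gy x1 y1 * (W * (pairMean dD - y1)) -
        L * (∑ o : (α ≃ β × Bool) × (β → Bool), (totStat dU o / b - x1) ^ 2 +
          ∑ o : (α ≃ β × Bool) × (β → Bool), (totStat dD o / b - y1) ^ 2) := by
    rw [Finset.sum_sub_distrib, Finset.sum_add_distrib, Finset.sum_add_distrib, Finset.sum_const,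
      Finset.card_univ, nsmul_eq_mul, ← hW, ← Finset.mul_sum, ← Finset.mul_sum, sumU, sumD,
      ← Finset.mul_sum, Finset.sum_add_distrib]
  refine le_trans ?_ (Finset.sum_le_sum fun o _ => hpt o)
  rw [hsum]
  have eU : -(L * (W * (x / b))) ≤ Gx x1 y1 * (W * (pairMean dU - x1)) := by
    have : |Gx x1 y1 * (W * (pairMean dU - x1))| ≤ L * (W * (x / b)) := by
      rw [abs_mul, abs_mul, abs_of_nonneg hW0]
      exact mul_le_mul hgx (mul_le_mul_of_nonneg_left mU hW0) (by positivity) hL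
    exact (abs_le.mp this).1
  have eD : -(L * (W * (x / b))) ≤ Gy x1 y1 * (W * (pairMean dD - y1)) := by
    have : |Gy x1 y1 * (W * (pairMean dD - y1))| ≤ L * (W * (x / b)) := by
      rw [abs_mul, abs_mul, abs_of_nonneg hW0]
      exact mul_le_mul hgy (mul_le_mul_of_nonneg_left mD hW0) (by positivity) hL
    exact (abs_le.mp this).1
  have eS : L * (∑ o : (α ≃ β × Bool) × (β → Bool), (totStat dU o / b - x1) ^ 2 +
      ∑ o : (α ≃ β × Bool) × (β → Bool), (totStat dD o / b - y1) ^ 2) ≤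
      L * (W * (20 * x / b) + W * (20 * x / b)) :=
    mul_le_mul_of_nonneg_left (add_le_add sqU sqD) hL
  have fin : W * (G x1 y1 - 42 * L * x / b) =
      W * G x1 y1 - L * (W * (x / b)) - L * (W * (x / b)) -
        L * (W * (20 * x / b) + W * (20 * x / b)) := by
    field_simp
    ring
  rw [fin]
  linarith

end

end Pool.Agent.Helper2.OC
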