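import Pool.Agent.Helper2.OC.Avg2

/-!
# The variance bound
-/

namespace Pool.Agent.Helper2.OC

open Finset

variable {α β : Type*} [Fintype α] [Fintype β] [DecidableEq α] [DecidableEq β]

theorem pairMean_nonneg (d : α → α → Bool → ℝ) (hd : ∀ a b y, 0 ≤ d a b y) : 0 ≤ pairMean d := by
  unfold pairMean
  refine div_nonneg (Finset.sum_nonneg fun x _ => ?_) (by positivity)
  have := hd (x 0) (x 1) false
  have := hd (x 0) (x 1) true
  positivity

theorem pairMean_le_one (d : α → α → Bool → ℝ) (hd : ∀ a b y, d a b y ≤ 1) : pairMean d ≤ 1 := by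
  unfold pairMean
  refine div_le_one_of_le₀ ?_ (by positivity)
  calc ∑ x : Fin 2 ↪ α, (d (x 0) (x 1) false + d (x 0) (x 1) true)
      ≤ ∑ _x : Fin 2 ↪ α, (2 : ℝ) := by
        refine Finset.sum_le_sum fun x _ => ?_
        have := hd (x 0) (x 1) false
        have := hd (x 0) (x 1) true
        linarith
    _ = 2 * (Fintype.card (Fin 2 ↪ α) : ℝ) := by
        rw [Finset.sum_const, Finset.card_univ, nsmul_eq_mul]; ring

/-- total statistic -/
def totStat (h : α → α → Bool → ℝ) (o : (α ≃ β × Bool) × (β → Bool)) : ℝ :=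
  ∑ j : β, pairStat h o j

theorem sum_totStat (hne : Nonempty (Fin 2 ↪ α)) (h : α → α → Bool → ℝ) :
    ∑ o : (α ≃ β × Bool) × (β → Bool), totStat h o =
      (Fintype.card ((α ≃ β × Bool) × (β → Bool)) : ℝ) * (Fintype.card β * pairMean h) := by
  unfold totStat
  rw [Finset.sum_comm, Finset.sum_congr rfl fun j _ => sum_pairStat hne h j, Finset.sum_const,
    Finset.card_univ, nsmul_eq_mul]
  ring

/-- Variance of a `[0,1]`-valued pair statistic. -/
theorem var_totStat (hcard : Fintype.card α = 2 * Fintype.card β) (h3 : 3 ≤ Fintype.card β)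
    (d : α → α → Bool → ℝ) (hd0 : ∀ a b y, 0 ≤ d a b y) (hd1 : ∀ a b y, d a b y ≤ 1) :
    ∑ o : (α ≃ β × Bool) × (β → Bool), (totStat d o - Fintype.card β * pairMean d) ^ 2 ≤
      (Fintype.card ((α ≃ β × Bool) × (β → Bool)) : ℝ) * (3 * Fintype.card β * pairMean d) := by
  have hne : Nonempty (Fin 2 ↪ α) := by
    refine ⟨(Function.Embedding.nonempty_of_card_le ?_).some⟩
    rw [Fintype.card_fin, hcard]
    omega
  set m := pairMean d with hm
  set W : ℝ := (Fintype.card ((α ≃ β × Bool) × (β → Bool)) : ℝ) with hW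
  have hW0 : 0 ≤ W := Nat.cast_nonneg _
  have hm0 : 0 ≤ m := pairMean_nonneg d hd0
  have hm1 : m ≤ 1 := pairMean_le_one d hd1
  set b : ℝ := (Fintype.card β : ℝ) with hb
  have hb3 : (3 : ℝ) ≤ b := by rw [hb]; exact_mod_cast h3
  have hsum : ∑ o : (α ≃ β × Bool) × (β → Bool), totStat d o = W * (b * m) := sum_totStat hne d
  -- second moment
  have hc2 : (Fintype.card (Fin 2 ↪ α) : ℝ) = (2 * b) * (2 * b - 1) := by
    rw [Fintype.card_embedding_eq, Fintype.card_fin, hcard]
    have h1 : (2 * Fintype.card β).descFactorial 2 =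
        (2 * Fintype.card β) * (2 * Fintype.card β - 1) := by
      simp [Nat.descFactorial_succ, mul_comm]
    rw [h1]
    rw [Nat.cast_mul, Nat.cast_sub (by omega)]
    push_cast
    ring
  have hc4 : (Fintype.card (Fin 4 ↪ α) : ℝ) =
      (2 * b) * (2 * b - 1) * ((2 * b - 2) * (2 * b - 3)) := by
    rw [Fintype.card_embedding_eq, Fintype.card_fin, hcard]
    have h1 : (2 * Fintype.card β).descFactorial 4 =
        (2 * Fintype.card β) * (2 * Fintype.card β - 1) * ((2 * Fintype.card β - 2) *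
          (2 * Fintype.card β - 3)) := by
      simp only [Nat.descFactorial_succ, Nat.descFactorial_zero, Nat.sub_zero, mul_one]
      ring
    rw [h1]
    have e1 : ((2 * Fintype.card β - 1 : ℕ) : ℝ) = 2 * b - 1 := by
      rw [Nat.cast_sub (by omega)]; push_cast; ring
    have e2 : ((2 * Fintype.card β - 2 : ℕ) : ℝ) = 2 * b - 2 := by
      rw [Nat.cast_sub (by omega)]; push_cast; ring
    have e3 : ((2 * Fintype.card β - 3 : ℕ) : ℝ) = 2 * b - 3 := by
      rw [Nat.cast_sub (by omega)]; push_cast; ring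
    simp only [Nat.cast_mul, e1, e2, e3]
    push_cast
    ring
  have hoff : ∀ j j' : β, j ≠ j' →
      ∑ o : (α ≃ β × Bool) × (β → Bool), pairStat d o j * pairStat d o j' ≤
        W * (m ^ 2 * ((2 * b) * (2 * b - 1)) / ((2 * b - 2) * (2 * b - 3))) := by
    intro j j' hj
    have h1 := sum_pairStat_mul hne hj d hd0
    rw [hc2, hc4] at h1
    have h2 : (0 : ℝ) < (2 * b) * (2 * b - 1) := by nlinarith
    have h4 : (0 : ℝ) < (2 * b - 2) * (2 * b - 3) := by nlinarith
    rw [← hW, ← hm] at h1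
    rw [mul_div_assoc', le_div_iff₀ h4]
    have h5 : (2 * b) * (2 * b - 1) * ((∑ o : (α ≃ β × Bool) × (β → Bool),
        pairStat d o j * pairStat d o j') * ((2 * b - 2) * (2 * b - 3))) ≤
        (2 * b) * (2 * b - 1) * (W * (m ^ 2 * ((2 * b) * (2 * b - 1)))) := by
      calc _ = (2 * b) * (2 * b - 1) * ((2 * b - 2) * (2 * b - 3)) *
            ∑ o : (α ≃ β × Bool) × (β → Bool), pairStat d o j * pairStat d o j' := by ring
        _ ≤ _ := h1
        _ = _ := by ring
    exact le_of_mul_le_mul_left h5 h2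
  have hdiag : ∀ j : β, ∑ o : (α ≃ β × Bool) × (β → Bool), pairStat d o j * pairStat d o j ≤
      W * m := by
    intro j
    rw [hW, hm, ← sum_pairStat hne d j]
    refine Finset.sum_le_sum fun o _ => ?_
    have h1 : 0 ≤ pairStat d o j := hd0 _ _ _
    have h2 : pairStat d o j ≤ 1 := hd1 _ _ _
    nlinarith
  have hsq : ∑ o : (α ≃ β × Bool) × (β → Bool), totStat d o ^ 2 ≤
      W * (b * m + b * (b - 1) *
        (m ^ 2 * ((2 * b) * (2 * b - 1)) / ((2 * b - 2) * (2 * b - 3)))) := by
    have h1 : ∀ o : (α ≃ β × Bool) × (β → Bool), totStat d o ^ 2 =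
        ∑ j, ∑ j', pairStat d o j * pairStat d o j' := by
      intro o
      unfold totStat
      rw [sq, Finset.sum_mul_sum]
    rw [Finset.sum_congr rfl fun o _ => h1 o, Finset.sum_comm]
    have h2 : ∀ j : β, ∑ o : (α ≃ β × Bool) × (β → Bool), ∑ j',
        pairStat d o j * pairStat d o j' ≤
        W * m + (b - 1) *
          (W * (m ^ 2 * ((2 * b) * (2 * b - 1)) / ((2 * b - 2) * (2 * b - 3)))) := by
      intro j
      rw [Finset.sum_comm, ← Finset.add_sum_erase _ _ (Finset.mem_univ j)]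
      refine add_le_add (hdiag j) ?_
      calc ∑ x ∈ Finset.univ.erase j, ∑ o : (α ≃ β × Bool) × (β → Bool),
            pairStat d o j * pairStat d o x
          ≤ ∑ _x ∈ Finset.univ.erase j,
            (W * (m ^ 2 * ((2 * b) * (2 * b - 1)) / ((2 * b - 2) * (2 * b - 3)))) :=
            Finset.sum_le_sum fun x hx => hoff j x (Finset.ne_of_mem_erase hx).symm
        _ = _ := by
            rw [Finset.sum_const, Finset.card_erase_of_mem (Finset.mem_univ j), Finset.card_univ,
              nsmul_eq_mul, Nat.cast_sub (by omega)]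
            push_cast
            rfl
    calc ∑ j : β, ∑ o : (α ≃ β × Bool) × (β → Bool), ∑ j', pairStat d o j * pairStat d o j'
        ≤ ∑ _j : β, (W * m + (b - 1) *
          (W * (m ^ 2 * ((2 * b) * (2 * b - 1)) / ((2 * b - 2) * (2 * b - 3))))) :=
          Finset.sum_le_sum fun j _ => h2 j
      _ = _ := by
          rw [Finset.sum_const, Finset.card_univ, nsmul_eq_mul]
          ring
  have hexp : ∑ o : (α ≃ β × Bool) × (β → Bool), (totStat d o - b * m) ^ 2 =
      ∑ o : (α ≃ β × Bool) × (β → Bool), totStat d o ^ 2 - W * (b * m) ^ 2 := by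
    have h1 : ∀ o : (α ≃ β × Bool) × (β → Bool), (totStat d o - b * m) ^ 2 =
        totStat d o ^ 2 - (2 * (b * m)) * totStat d o + (b * m) ^ 2 := fun o => by ring
    rw [Finset.sum_congr rfl fun o _ => h1 o, Finset.sum_add_distrib, Finset.sum_sub_distrib,
      ← Finset.mul_sum, hsum, Finset.sum_const, Finset.card_univ, nsmul_eq_mul, ← hW]
    ring
  rw [hexp]
  have h4 : (0 : ℝ) < (2 * b - 2) * (2 * b - 3) := by nlinarith
  have h23 : (0 : ℝ) < 2 * b - 3 := by linarith
  have key : b * (b - 1) * (m ^ 2 * ((2 * b) * (2 * b - 1)) / ((2 * b - 2) * (2 * b - 3))) -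
      (b * m) ^ 2 ≤ 2 * b * m := by
    have h5 : b * (b - 1) * (m ^ 2 * ((2 * b) * (2 * b - 1)) / ((2 * b - 2) * (2 * b - 3))) =
        b ^ 2 * m ^ 2 * (2 * b - 1) / (2 * b - 3) := by
      have h22 : (0:ℝ) < b - 1 := by linarith
      have h6 : 2 * b - 3 ≠ 0 := h23.ne'
      have h66 : b - 1 ≠ 0 := h22.ne'
      have h67 : (2 * b - 2) = 2 * (b - 1) := by ring
      rw [h67, ← mul_div_assoc, div_eq_div_iff (by positivity) h6]
      ring
    rw [h5, sub_le_iff_le_add, div_le_iff₀ h23]
    have h7 : m ^ 2 ≤ m := by nlinarith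
    have h8 : b ^ 2 * m ^ 2 * 2 ≤ b ^ 2 * m * 2 := by nlinarith [sq_nonneg b]
    have h9 : b ^ 2 * m * 2 ≤ 2 * b * m * (2 * b - 3) := by
      have : 0 ≤ b * m := by positivity
      nlinarith
    nlinarith
  calc ∑ o : (α ≃ β × Bool) × (β → Bool), totStat d o ^ 2 - W * (b * m) ^ 2
      ≤ W * (b * m + b * (b - 1) *
        (m ^ 2 * ((2 * b) * (2 * b - 1)) / ((2 * b - 2) * (2 * b - 3)))) - W * (b * m) ^ 2 := by
        linarith
    _ = W * (b * m + (b * (b - 1) *
        (m ^ 2 * ((2 * b) * (2 * b - 1)) / ((2 * b - 2) * (2 * b - 3))) - (b * m) ^ 2)) := by ring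
    _ ≤ W * (b * m + 2 * b * m) := by
        apply mul_le_mul_of_nonneg_left _ hW0
        linarith
    _ = W * (3 * b * m) := by ring

end Pool.Agent.Helper2.OC
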